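import Pool.Agent.L0h54.HV.Fin3

set_option autoImplicit false

/-! The conclusion for one prime and one modulus (deterministic). -/

namespace Pool.Agent.L0h54.HV

open Finset Filter
open scoped Classical Topology
open Pool.Agent.H306R2.RZ (js LSB)
open Pool.Agent.L0h41.MQ (AP cf odd decomp)
open ArithmeticFunction (vonMangoldt)

/-- the sum over a residue class -/
noncomputable def Sa (f : ℕ → ℝ) (l x q a : ℕ) : ℝ := ∑ n ∈ AP 0 x q a, vonMangoldt n * f n * js (n : ℤ) l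

/-- the diagonal -/
noncomputable def Mx (f : ℕ → ℝ) (x : ℕ) : ℝ := ∑ n ∈ Icc 1 x, (vonMangoldt n * f n) ^ 2

lemma Mx_le (f : ℕ → ℝ) (hf : ∀ n, |f n| ≤ 1) (x r : ℕ) (h : x ≤ 2 ^ r) :
    Mx f x ≤ ((r:ℝ) + 1) ^ 2 * (2:ℝ) ^ r := by
  unfold Mx
  have h1 : ∀ n ∈ Icc 1 x, (vonMangoldt n * f n) ^ 2 ≤ ((r:ℝ) + 1) ^ 2 := by
    intro n hn
    rw [mem_Icc] at hn
    rw [← sq_abs, abs_mul]
    apply pow_le_pow_left₀ (by positivity)
    have h2 : |vonMangoldt n| ≤ Real.log n := by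
      rw [abs_of_nonneg ArithmeticFunction.vonMangoldt_nonneg]
      exact ArithmeticFunction.vonMangoldt_le_log
    have h3 : Real.log n ≤ (r:ℝ) + 1 := by
      have h4 : Real.log n ≤ Real.log ((2 ^ r : ℕ) : ℝ) :=
        Real.log_le_log (by exact_mod_cast hn.1) (by exact_mod_cast hn.2.trans h)
      push_cast at h4
      rw [Real.log_pow] at h4
      have h5 := Real.log_two_lt_d9
      have : (0:ℝ) ≤ r := Nat.cast_nonneg r
      nlinarith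
    calc |vonMangoldt n| * |f n| ≤ |vonMangoldt n| * 1 :=
          mul_le_mul_of_nonneg_left (hf n) (abs_nonneg _)
      _ ≤ _ := by rw [mul_one]; exact h2.trans h3
  refine (sum_le_sum h1).trans ?_
  rw [sum_const, Nat.card_Icc, Nat.add_sub_cancel, nsmul_eq_mul, mul_comm]
  apply mul_le_mul_of_nonneg_left _ (by positivity)
  exact_mod_cast h

lemma not_badI {r j0 Q q : ℕ} {f : ℕ → ℝ} {T : ℝ} {l : ℕ} (h : l ∉ BadQ r j0 Q q f T) (hl : l.Prime)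
    (hl2 : l ≠ 2) (hlr : 2 ^ r < l) (hlQ : l ≤ Q) (hj : j0 ≤ r) :
    (∀ j ≤ j0, ∀ u : ℕ, (u + 1) * 2 ^ j ≤ 2 ^ r →
      |Vo (2 ^ r) q (u * 2 ^ j) ((u + 1) * 2 ^ j) f l - Dg (2 ^ r) q (u * 2 ^ j) ((u + 1) * 2 ^ j) f| ≤ T) ∧
    (∀ u : ℕ, u * 2 ^ j0 ≤ 2 ^ r → |Vo (2 ^ r) q 0 (u * 2 ^ j0) f l - Dg (2 ^ r) q 0 (u * 2 ^ j0) f| ≤ T) := by
  unfold BadQ at h
  rw [mem_union, mem_biUnion, mem_biUnion] at h
  push Not at h
  obtain ⟨h1, h2⟩ := h
  have hin : ∀ y z : ℕ, l ∉ BadI (2 ^ r) Q q y z f T → |Vo (2 ^ r) q y z f l - Dg (2 ^ r) q y z f| ≤ T := by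
    intro y z h3
    by_contra hcon
    push Not at hcon
    apply h3
    unfold BadI
    rw [mem_filter, mem_filter, mem_Ioc]
    exact ⟨⟨⟨hlr, hlQ⟩, hl, hl2⟩, hcon⟩
  constructor
  · intro j hj' u hu
    apply hin
    have h3 := h1 j (mem_range.mpr (by omega))
    rw [mem_biUnion] at h3
    push Not at h3
    apply h3 u
    rw [mem_range]
    have e : 2 ^ r = 2 ^ (r - j) * 2 ^ j := by rw [← pow_add]; congr 1; omega
    rw [e] at hu
    have := Nat.le_of_mul_le_mul_right hu (by positivity)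
    omega
  · intro u hu
    apply hin
    apply h2 u
    rw [mem_range]
    have e : 2 ^ r = 2 ^ (r - j0) * 2 ^ j0 := by rw [← pow_add]; congr 1; omega
    rw [e] at hu
    have := Nat.le_of_mul_le_mul_right hu (by positivity)
    omega

theorem det (hE : EVN) (hM : MAX) (hN : NCP) (ε κ : ℝ) (hε0 : 0 < ε) (hε1 : ε ≤ 1) (hκ : κ = ε ^ 2 / 20) :
    ∃ K0 : ℝ, 0 < K0 ∧ ∀ (r q x Q l : ℕ) (f : ℕ → ℝ), (∀ n, |f n| ≤ 1) → 1 ≤ r → x ≤ 2 ^ r → 2 ^ r ≤ 2 * x →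
      1 ≤ q → q ≤ x → (x:ℝ) ^ ε ≤ q → l.Prime → l ≠ 2 → 2 ^ r < l → l ≤ Q →
      l ∉ BadQ r (jr κ r) Q q f (Tr κ r) →
      |∑ a ∈ (range q).filter (fun a => Nat.Coprime a q), Sa f l x q a ^ 2 - Mx f x| ≤
        K0 * (((r:ℝ) + 1) ^ 6 * ((2:ℝ) ^ r) ^ (1 - κ / 2)) := by
  have he2 : 0 < ε ^ 2 := by positivity
  have he21 : ε ^ 2 ≤ ε := by nlinarith
  have hκ0 : 0 < κ := by rw [hκ]; positivity
  have hκ1 : κ ≤ ε / 4 := by rw [hκ]; linarith
  obtain ⟨CM, hCM, hM'⟩ := hM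
  obtain ⟨CE, hCE, hE'⟩ := hE (ε / 4) (by positivity)
  obtain ⟨CN, hCN, hN'⟩ := hN
  refine ⟨5 * CM + (1 + 5 * CM) + 6 * CE + CN, by positivity, ?_⟩
  intro r q x Q l f hf hr hx1 hx2 hq1 hqx hxq hl hl2 hlr hlQ hbad
  have hjr := jr_le κ r hκ0.le (by linarith)
  obtain ⟨g1, g2⟩ := not_badI hbad hl hl2 hlr hlQ hjr
  have g3 := hM' r (jr κ r) q f l (Tr κ r) hf hr hjr hq1 hl hlr (Tr_pos κ r).le g1 g2 x hx1
  obtain ⟨R, hR⟩ : ∃ R : ℝ, R = (2:ℝ) ^ r := ⟨_, rfl⟩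
  have hR1 : 1 ≤ R := by rw [hR]; exact one_le_pow₀ (by norm_num)
  have hR0 : 0 < R := by linarith
  have hr0 : (0:ℝ) ≤ r := Nat.cast_nonneg r
  have hr1 : (1:ℝ) ≤ (r:ℝ) + 1 := by linarith
  have hRm : ∀ a b : ℝ, a ≤ b → R ^ a ≤ R ^ b := fun a b h => Real.rpow_le_rpow_of_exponent_le hR1 h
  have hT : Tr κ r = R ^ (1 - κ) := by
    unfold Tr
    rw [hR, ← Real.rpow_natCast, ← Real.rpow_mul (by norm_num), mul_comm]
  have h2j := two_jr_le κ r (by linarith)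
  rw [← hR, hT] at g3
  rw [hT] at h2j
  obtain ⟨W, hW⟩ : ∃ W : ℝ, W = R ^ (1 - κ / 2) := ⟨_, rfl⟩
  have hW0 : 0 < W := by rw [hW]; positivity
  have hTW : R ^ (1 - κ) ≤ W := by rw [hW]; exact hRm _ _ (by linarith)
  have hsR : √R ≤ W := by
    rw [Real.sqrt_eq_rpow, hW]; exact hRm _ _ (by linarith)
  have hs1 : √(R * (2 ^ jr κ r + R ^ (1 - κ))) ≤ 2 * W := by
    rw [Real.sqrt_le_left (by positivity)]
    have e : W ^ 2 = R * R ^ (1 - κ) := by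
      rw [hW, ← Real.rpow_natCast, ← Real.rpow_mul hR0.le]
      nth_rewrite 2 [← Real.rpow_one R]
      rw [← Real.rpow_add hR0]
      congr 1
      push_cast
      ring
    have e2 : (2 * W) ^ 2 = 4 * (R * R ^ (1 - κ)) := by rw [mul_pow, e]; norm_num
    rw [e2]
    have h3 : R * (2 ^ jr κ r + R ^ (1 - κ)) ≤ R * (2 * R ^ (1 - κ)) := by
      apply mul_le_mul_of_nonneg_left _ hR0.le
      linarith
    have h4 : 0 ≤ R * R ^ (1 - κ) := by positivity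
    linarith
  have hVo : |Vo (2 ^ r) q 0 x f l - Mx f x| ≤ 5 * CM * (((r:ℝ) + 1) ^ 6 * W) := by
    refine g3.trans ?_
    have h3 : √(R * (2 ^ jr κ r + R ^ (1 - κ))) + 2 ^ jr κ r + R ^ (1 - κ) + √R ≤ 5 * W := by linarith
    calc CM * (r:ℝ) ^ 6 * (√(R * (2 ^ jr κ r + R ^ (1 - κ))) + 2 ^ jr κ r + R ^ (1 - κ) + √R) ≤
        CM * ((r:ℝ) + 1) ^ 6 * (5 * W) := by
          gcongr
          linarith
      _ = _ := by ring
  -- the size of the variance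
  have hMx := Mx_le f hf x r hx1
  rw [← hR] at hMx
  have hWR : W ≤ R := by
    rw [hW]
    calc R ^ (1 - κ / 2) ≤ R ^ (1:ℝ) := hRm _ _ (by linarith)
      _ = R := Real.rpow_one R
  have hVo2 : Vo (2 ^ r) q 0 x f l ≤ (1 + 5 * CM) * (((r:ℝ) + 1) ^ 6 * R) := by
    have h3 := (abs_le.mp hVo).2
    have h4 : ((r:ℝ) + 1) ^ 2 * R ≤ ((r:ℝ) + 1) ^ 6 * R := by
      apply mul_le_mul_of_nonneg_right _ hR0.le
      exact pow_le_pow_right₀ hr1 (by norm_num)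
    have h5 : 5 * CM * (((r:ℝ) + 1) ^ 6 * W) ≤ 5 * CM * (((r:ℝ) + 1) ^ 6 * R) := by gcongr
    linarith
  -- the squares
  obtain ⟨EV, hEV⟩ : ∃ EV : ℝ, EV = ∑ a ∈ range q,
      (∑ n ∈ (AP 0 x q a).filter (fun n => IsSquare n), vonMangoldt n * f n * js (n : ℤ) l) ^ 2 := ⟨_, rfl⟩
  have hN2 : 2 ≤ 2 ^ r := by
    calc 2 = 2 ^ 1 := rfl
      _ ≤ 2 ^ r := Nat.pow_le_pow_right (by norm_num) hr
  have hEV1 : EV ≤ 3 * CE * R ^ (1 - ε / 4) := by
    have h3 := hE' (2 ^ r) q x f hf hN2 hq1 hx1 l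
    rw [← hEV] at h3
    have e : ((2 ^ r : ℕ) : ℝ) = R := by rw [hR]; push_cast; rfl
    rw [e] at h3
    have h4 : R ^ (ε / 2) / 2 ≤ √q := by
      apply Real.le_sqrt_of_sq_le
      have hxR : R / 2 ≤ x := by
        have : (R:ℝ) ≤ 2 * x := by rw [hR]; exact_mod_cast hx2
        linarith
      have h5 : (R / 2) ^ ε ≤ q := le_trans (Real.rpow_le_rpow (by linarith) hxR hε0.le) hxq
      have h6 : (R ^ (ε / 2) / 2) ^ 2 ≤ (R / 2) ^ ε := by
        rw [div_pow, ← Real.rpow_natCast (R ^ (ε / 2)), ← Real.rpow_mul hR0.le, Real.div_rpow hR0.le (by norm_num)]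
        have e3 : ε / 2 * ((2:ℕ):ℝ) = ε := by push_cast; ring
        rw [e3]
        apply div_le_div_of_nonneg_left (by positivity) (by positivity)
        calc (2:ℝ) ^ ε ≤ 2 ^ (1:ℝ) := Real.rpow_le_rpow_of_exponent_le (by norm_num) hε1
          _ ≤ 2 ^ 2 := by norm_num
      exact h6.trans h5
    have h7 : R / √q ≤ 2 * R ^ (1 - ε / 2) := by
      have hsq : 0 < √(q:ℝ) := Real.sqrt_pos.mpr (by exact_mod_cast hq1)
      rw [div_le_iff₀ hsq]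
      have e4 : R ^ (1 - ε / 2) * R ^ (ε / 2) = R := by rw [← Real.rpow_add hR0]; simp
      calc R = 2 * R ^ (1 - ε / 2) * (R ^ (ε / 2) / 2) := by linear_combination -e4
        _ ≤ 2 * R ^ (1 - ε / 2) * √q := by gcongr
    have h8 : √R ≤ R ^ (1 - ε / 2) := by
      rw [Real.sqrt_eq_rpow]; exact hRm _ _ (by linarith)
    calc EV ≤ CE * R ^ (ε / 4) * (R / √q + √R) := h3
      _ ≤ CE * R ^ (ε / 4) * (2 * R ^ (1 - ε / 2) + R ^ (1 - ε / 2)) := by gcongr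
      _ = 3 * CE * (R ^ (ε / 4) * R ^ (1 - ε / 2)) := by ring
      _ = 3 * CE * R ^ (1 - ε / 4) := by rw [← Real.rpow_add hR0]; congr 2; ring
  have hEV0 : 0 ≤ EV := by rw [hEV]; exact sum_nonneg fun _ _ => sq_nonneg _
  -- comparison
  obtain ⟨t, ht⟩ : ∃ t : ℝ, t = R ^ (-(κ / 2)) := ⟨_, rfl⟩
  have ht0 : 0 < t := by rw [ht]; positivity
  have ht1 : t ≤ 1 := by rw [ht]; exact Real.rpow_le_one_of_one_le_of_nonpos hR1 (by linarith)
  have hall : |∑ a ∈ range q, Sa f l x q a ^ 2 - Vo (2 ^ r) q 0 x f l| ≤ t * Vo (2 ^ r) q 0 x f l + 2 * (EV / t) := by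
    unfold Vo
    rw [← sum_sub_distrib]
    refine (abs_sum_le_sum_abs _ _).trans ?_
    have h3 : ∀ a ∈ range q, |Sa f l x q a ^ 2 - odd (2 ^ r) 0 x q a f l ^ 2| ≤
        t * odd (2 ^ r) 0 x q a f l ^ 2 + 2 * ((∑ n ∈ (AP 0 x q a).filter (fun n => IsSquare n),
          vonMangoldt n * f n * js (n : ℤ) l) ^ 2 / t) := by
      intro a _
      have h4 : Sa f l x q a = (∑ n ∈ (AP 0 x q a).filter (fun n => IsSquare n),
          vonMangoldt n * f n * js (n : ℤ) l) + odd (2 ^ r) 0 x q a f l := by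
        unfold Sa odd
        have := decomp (2 ^ r) 0 x q a hx1 f l hl hlr
        convert this using 3
      rw [h4]
      obtain ⟨e, he⟩ : ∃ e : ℝ, e = ∑ n ∈ (AP 0 x q a).filter (fun n => IsSquare n),
          vonMangoldt n * f n * js (n : ℤ) l := ⟨_, rfl⟩
      obtain ⟨o, ho⟩ : ∃ o : ℝ, o = odd (2 ^ r) 0 x q a f l := ⟨_, rfl⟩
      rw [← he, ← ho]
      have h5 : e ^ 2 ≤ e ^ 2 / t := by
        rw [le_div_iff₀ ht0]
        nlinarith [sq_nonneg e]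
      have h6 : 2 * (|e| * |o|) ≤ t * o ^ 2 + e ^ 2 / t := by
        have h7 : 0 ≤ (t * |o| - |e|) ^ 2 / t := by positivity
        have h8 : (t * |o| - |e|) ^ 2 / t = t * |o| ^ 2 + |e| ^ 2 / t - 2 * (|e| * |o|) := by
          field_simp
          ring
        rw [h8, sq_abs, sq_abs] at h7
        linarith
      have h9 : (e + o) ^ 2 - o ^ 2 = 2 * (e * o) + e ^ 2 := by ring
      rw [h9]
      calc |2 * (e * o) + e ^ 2| ≤ |2 * (e * o)| + |e ^ 2| := abs_add_le _ _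
        _ = 2 * (|e| * |o|) + e ^ 2 := by rw [abs_mul, abs_mul, abs_two, abs_of_nonneg (sq_nonneg e)]
        _ ≤ _ := by linarith
    refine (sum_le_sum h3).trans (le_of_eq ?_)
    rw [sum_add_distrib, ← mul_sum, ← mul_sum, ← sum_div, ← hEV]
  have hall2 : t * Vo (2 ^ r) q 0 x f l + 2 * (EV / t) ≤ ((1 + 5 * CM) + 6 * CE) * (((r:ℝ) + 1) ^ 6 * W) := by
    have h3 : t * R = W := by
      rw [ht, hW]
      nth_rewrite 2 [← Real.rpow_one R]
      rw [← Real.rpow_add hR0]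
      congr 1
      ring
    have h4 : t * Vo (2 ^ r) q 0 x f l ≤ (1 + 5 * CM) * (((r:ℝ) + 1) ^ 6 * W) := by
      calc t * Vo (2 ^ r) q 0 x f l ≤ t * ((1 + 5 * CM) * (((r:ℝ) + 1) ^ 6 * R)) := by gcongr
        _ = (1 + 5 * CM) * (((r:ℝ) + 1) ^ 6 * (t * R)) := by ring
        _ = _ := by rw [h3]
    have h5 : EV / t ≤ 3 * CE * W := by
      rw [div_le_iff₀ ht0]
      refine hEV1.trans ?_
      have h6 : W * t = R ^ (1 - κ) := by
        rw [ht, hW, ← Real.rpow_add hR0]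
        congr 1
        ring
      calc 3 * CE * R ^ (1 - ε / 4) ≤ 3 * CE * R ^ (1 - κ) := by
            apply mul_le_mul_of_nonneg_left (hRm _ _ (by linarith)) (by positivity)
        _ = 3 * CE * W * t := by rw [← h6]; ring
    have h7 : W ≤ ((r:ℝ) + 1) ^ 6 * W := by
      have : 1 ≤ ((r:ℝ) + 1) ^ 6 := one_le_pow₀ hr1
      nlinarith
    have h8 : 6 * CE * W ≤ 6 * CE * (((r:ℝ) + 1) ^ 6 * W) := by gcongr
    linarith
  -- the classes which are not coprime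
  have hnc := hN' (2 ^ r) q x f hf hN2 hq1 (hqx.trans hx1) hx1 l
  have hsplit : ∑ a ∈ range q, Sa f l x q a ^ 2 =
      ∑ a ∈ (range q).filter (fun a => Nat.Coprime a q), Sa f l x q a ^ 2 +
      ∑ a ∈ (range q).filter (fun a => ¬ Nat.Coprime a q), Sa f l x q a ^ 2 :=
    (sum_filter_add_sum_filter_not _ _ _).symm
  have hnc0 : 0 ≤ ∑ a ∈ (range q).filter (fun a => ¬ Nat.Coprime a q), Sa f l x q a ^ 2 :=
    sum_nonneg fun _ _ => sq_nonneg _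
  have hnc1 : ∑ a ∈ (range q).filter (fun a => ¬ Nat.Coprime a q), Sa f l x q a ^ 2 ≤
      CN * (((r:ℝ) + 1) ^ 6 * W) := by
    have h3 : ∑ a ∈ (range q).filter (fun a => ¬ Nat.Coprime a q), Sa f l x q a ^ 2 ≤
        CN * Real.log ((2 ^ r : ℕ) : ℝ) ^ 6 := hnc
    refine h3.trans ?_
    apply mul_le_mul_of_nonneg_left _ hCN.le
    have h4 : Real.log ((2 ^ r : ℕ) : ℝ) ≤ (r:ℝ) + 1 := by
      push_cast
      rw [Real.log_pow]
      have h5 := Real.log_two_lt_d9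
      nlinarith
    have h6 : 0 ≤ Real.log ((2 ^ r : ℕ) : ℝ) := Real.log_nonneg (by exact_mod_cast Nat.one_le_two_pow)
    have h7 : 1 ≤ W := by rw [hW]; exact Real.one_le_rpow hR1 (by linarith)
    calc Real.log ((2 ^ r : ℕ) : ℝ) ^ 6 ≤ ((r:ℝ) + 1) ^ 6 := pow_le_pow_left₀ h6 h4 6
      _ ≤ ((r:ℝ) + 1) ^ 6 * W := le_mul_of_one_le_right (by positivity) h7
  rw [← hR, ← hW]
  have hfin := hall.trans hall2
  rw [hsplit] at hfin
  rw [abs_le] at hfin hVo ⊢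
  have hpos : 0 ≤ ((r:ℝ) + 1) ^ 6 * W := by positivity
  constructor <;> nlinarith [hfin.1, hfin.2, hVo.1, hVo.2]

end Pool.Agent.L0h54.HV
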