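import Pool.Agent.L0h54.HV.BonA

set_option autoImplicit false

/-! The fourth moment of a quadratic form in the Legendre symbols (module BON). -/

namespace Pool.Agent.L0h54.HV

open Finset
open scoped Classical
open Pool.Agent.H306R2.RZ (js LSB)
open Pool.Agent.L0h41.MQ (sg sg_pair)
open Pool.Agent.L0h54.GC (ls_fam js_mul sqi sqi_nonneg)

/-- the product of the four primes -/
def v4 (i : (ℕ × ℕ) × (ℕ × ℕ)) : ℕ := (i.1.1 * i.1.2) * (i.2.1 * i.2.2)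

/-- the four primes -/
def t4 (i : (ℕ × ℕ) × (ℕ × ℕ)) : Fin 4 → ℕ := ![i.1.1, i.1.2, i.2.1, i.2.2]

lemma t4_prod (i : (ℕ × ℕ) × (ℕ × ℕ)) : ∏ j, t4 i j = v4 i := by
  unfold t4 v4
  rw [Fin.prod_univ_four]
  simp [mul_assoc]

lemma t4_sg (T : Finset ℕ) (i : (ℕ × ℕ) × (ℕ × ℕ)) :
    ∏ j, sg T (t4 i j) = (sg T i.1.1 * sg T i.1.2) * (sg T i.2.1 * sg T i.2.2) := by
  unfold t4
  rw [Fin.prod_univ_four]
  simp [mul_assoc]

lemma sq_prodF (N : ℕ) (a : ℕ × ℕ → ℝ) : (∑ w ∈ Pr N, a w) ^ 2 = ∑ i ∈ Pr N ×ˢ Pr N, a i.1 * a i.2 := by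
  rw [sq, Finset.sum_mul_sum, Finset.sum_product]

/-- the number of the octuples with square product, with weights -/
theorem bon_count (N : ℕ) (K : ℕ × ℕ → ℝ) :
    ∑ i ∈ Pr N ×ˢ Pr N, ∑ i' ∈ Pr N ×ˢ Pr N, |K i.1 * K i.2| * |K i'.1 * K i'.2| * sqi (v4 i * v4 i') ≤
      81 * (∑ w ∈ Pr N, K w ^ 2) ^ 2 := by
  obtain ⟨I, hI⟩ : ∃ I, I = (Icc 1 N).filter Nat.Prime := ⟨_, rfl⟩
  have hIp : ∀ p ∈ I, p.Prime := by
    intro p hp
    rw [hI] at hp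
    exact (mem_filter.1 hp).2
  have h2 : (0 : ℝ) < 2 ^ I.card := by positivity
  have h1 := bon_quad N (fun w => |K w|)
  simp only [sq_abs] at h1
  rw [← hI] at h1
  have ht : ∀ i ∈ Pr N ×ˢ Pr N, ∀ j, t4 i j ∈ I := by
    intro i hi j
    rw [mem_product] at hi
    obtain ⟨a1, a2, -⟩ := Pr_mem hi.1
    obtain ⟨b1, b2, -⟩ := Pr_mem hi.2
    rw [← hI] at a1 a2 b1 b2
    unfold t4
    fin_cases j
    · exact a1
    · exact a2
    · exact b1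
    · exact b2
  have h3 : 2 ^ I.card * ∑ i ∈ Pr N ×ˢ Pr N, ∑ i' ∈ Pr N ×ˢ Pr N,
      |K i.1 * K i.2| * |K i'.1 * K i'.2| * sqi (v4 i * v4 i') ≤
      ∑ T ∈ I.powerset, (∑ w ∈ Pr N, |K w| * (sg T w.1 * sg T w.2)) ^ 4 := by
    have e1 : ∀ T, (∑ w ∈ Pr N, |K w| * (sg T w.1 * sg T w.2)) ^ 4 =
        ∑ i ∈ Pr N ×ˢ Pr N, ∑ i' ∈ Pr N ×ˢ Pr N, |K i.1 * K i.2| * |K i'.1 * K i'.2| *
          ((∏ j, sg T (t4 i j)) * ∏ j, sg T (t4 i' j)) := by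
      intro T
      have e2 : (∑ w ∈ Pr N, |K w| * (sg T w.1 * sg T w.2)) ^ 4 =
          ((∑ w ∈ Pr N, |K w| * (sg T w.1 * sg T w.2)) ^ 2) ^ 2 := by ring
      rw [e2, sq_prodF, sq, Finset.sum_mul_sum]
      refine Finset.sum_congr rfl fun i _ => Finset.sum_congr rfl fun i' _ => ?_
      rw [t4_sg, t4_sg, abs_mul, abs_mul]
      ring
    have e3 : ∑ T ∈ I.powerset, (∑ w ∈ Pr N, |K w| * (sg T w.1 * sg T w.2)) ^ 4 =
        ∑ i ∈ Pr N ×ˢ Pr N, ∑ i' ∈ Pr N ×ˢ Pr N, |K i.1 * K i.2| * |K i'.1 * K i'.2| *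
          ∑ T ∈ I.powerset, ((∏ j, sg T (t4 i j)) * ∏ j, sg T (t4 i' j)) := by
      simp only [e1]
      rw [Finset.sum_comm]
      refine Finset.sum_congr rfl fun i _ => ?_
      rw [Finset.sum_comm]
      refine Finset.sum_congr rfl fun i' _ => ?_
      rw [Finset.mul_sum]
    rw [e3, Finset.mul_sum]
    refine Finset.sum_le_sum fun i hi => ?_
    rw [Finset.mul_sum]
    refine Finset.sum_le_sum fun i' hi' => ?_
    have h4 := sg_pair I hIp (t4 i) (t4 i') (ht i hi) (ht i' hi')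
    rw [t4_prod, t4_prod] at h4
    calc _ = |K i.1 * K i.2| * |K i'.1 * K i'.2| * (2 ^ I.card * sqi (v4 i * v4 i')) := by ring
      _ ≤ _ := mul_le_mul_of_nonneg_left h4 (by positivity)
  exact le_of_mul_le_mul_left (h3.trans h1) h2

theorem t_BON : BON := by
  intro N M Q B hB hLS hNM K P hP
  have e1 : ∀ l, (∑ w ∈ Pr N, K w * (js (w.1 : ℤ) l * js (w.2 : ℤ) l)) ^ 4 =
      (∑ i ∈ Pr N ×ˢ Pr N, (K i.1 * K i.2) * js ((v4 i : ℕ) : ℤ) l) ^ 2 := by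
    intro l
    have e2 : (∑ w ∈ Pr N, K w * (js (w.1 : ℤ) l * js (w.2 : ℤ) l)) ^ 4 =
        ((∑ w ∈ Pr N, K w * (js (w.1 : ℤ) l * js (w.2 : ℤ) l)) ^ 2) ^ 2 := by ring
    rw [e2, sq_prodF]
    congr 1
    refine Finset.sum_congr rfl fun i _ => ?_
    unfold v4
    rw [js_mul, js_mul, js_mul]
    ring
  simp only [e1]
  have hmem : ∀ i ∈ Pr N ×ˢ Pr N, (1 ≤ i.1.1 ∧ i.1.1 ≤ N) ∧ (1 ≤ i.1.2 ∧ i.1.2 ≤ N) ∧
      (1 ≤ i.2.1 ∧ i.2.1 ≤ N) ∧ (1 ≤ i.2.2 ∧ i.2.2 ≤ N) := by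
    intro i hi
    rw [mem_product] at hi
    obtain ⟨a1, a2, -⟩ := Pr_mem hi.1
    obtain ⟨b1, b2, -⟩ := Pr_mem hi.2
    rw [mem_filter, mem_Icc] at a1 a2 b1 b2
    exact ⟨a1.1, a2.1, b1.1, b2.1⟩
  have h := ls_fam hB hLS (Pr N ×ˢ Pr N) v4 (fun i => K i.1 * K i.2) P ?_ ?_
  · exact h.trans (mul_le_mul_of_nonneg_left (bon_count N K) hB)
  · intro l hl
    obtain ⟨h1, h2, h3, h4⟩ := hP l hl
    refine ⟨h1, h2, h4, fun i hi hd => ?_⟩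
    obtain ⟨a, b, c, d⟩ := hmem i hi
    unfold v4 at hd
    have hk : ∀ n, 1 ≤ n → n ≤ N → ¬ l ∣ n := fun n hn1 hn2 hd =>
      absurd (Nat.le_of_dvd hn1 hd) (by omega)
    rcases (Nat.Prime.dvd_mul h1).1 hd with hd | hd <;> rcases (Nat.Prime.dvd_mul h1).1 hd with hd | hd
    · exact hk _ a.1 a.2 hd
    · exact hk _ b.1 b.2 hd
    · exact hk _ c.1 c.2 hd
    · exact hk _ d.1 d.2 hd
  · intro i hi
    obtain ⟨a, b, c, d⟩ := hmem i hi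
    unfold v4
    constructor
    · exact Nat.one_le_iff_ne_zero.2 (by
        have := a.1; have := b.1; have := c.1; have := d.1
        positivity)
    · refine le_trans ?_ hNM
      calc i.1.1 * i.1.2 * (i.2.1 * i.2.2) ≤ N * N * (N * N) :=
            Nat.mul_le_mul (Nat.mul_le_mul a.2 b.2) (Nat.mul_le_mul c.2 d.2)
        _ = N ^ 4 := by ring

end Pool.Agent.L0h54.HV
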