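import Pool.Agent.L0h54.HV.Fin4

set_option autoImplicit false

/-! The variance over residue classes: the final statement. -/

namespace Pool.Agent.L0h54.HV

open Finset Filter
open scoped Classical Topology
open Pool.Agent.H306R2.RZ (js LSB)
open Pool.Agent.L0h41.MQ (AP cf odd decomp)
open Pool.Agent.L0h54.GC (asym)
open ArithmeticFunction (vonMangoldt)

theorem nat_main (hB : BON) (hK : KER) (hE : EVN) (hM : MAX) (hN : NCP) (ε : ℝ) (hε0 : 0 < ε) (hε1 : ε ≤ 1) :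
    ∃ c : ℝ, 0 < c ∧ c ≤ 1 / 4 ∧ ∃ Q0 : ℕ, ∀ Q : ℕ, Q0 ≤ Q → ∀ f : ℕ → ℝ, (∀ n, |f n| ≤ 1) →
      ∃ E : Finset ℕ, (E.card : ℝ) ≤ (Q:ℝ) ^ (1 - c) ∧
        ∀ l : ℕ, l.Prime → l ≤ Q → l ∉ E → ∀ x q : ℕ, (Q:ℝ) ^ ε ≤ x → (x:ℝ) ^ ε ≤ q → q ≤ x →
          (x:ℝ) ^ 4 ≤ q * (Q:ℝ) ^ (1 - ε) →
            |∑ a ∈ (range q).filter (fun a => Nat.Coprime a q), Sa f l x q a ^ 2 - Mx f x| ≤ (x:ℝ) ^ (1 - c) := by
  obtain ⟨κ, hκ⟩ : ∃ κ : ℝ, κ = ε ^ 2 / 20 := ⟨_, rfl⟩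
  have he2 : 0 < ε ^ 2 := by positivity
  have he21 : ε ^ 2 ≤ 1 := by nlinarith
  have hκ0 : 0 < κ := by rw [hκ]; positivity
  have hκ1 : κ ≤ 1 := by rw [hκ]; linarith
  obtain ⟨c1, hc1, Q1, hall⟩ := all_scales hB hK ε κ hε0 hε1 hκ
  obtain ⟨K0, hK0, hdet⟩ := det hE hM hN ε κ hε0 hε1 hκ
  obtain ⟨c, hc⟩ : ∃ c : ℝ, c = min c1 (κ / 4) := ⟨_, rfl⟩
  have hc0 : 0 < c := by rw [hc, lt_min_iff]; exact ⟨hc1, by positivity⟩
  have hcc : c ≤ c1 := by rw [hc]; exact min_le_left _ _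
  have hcκ : c ≤ κ / 4 := by rw [hc]; exact min_le_right _ _
  obtain ⟨X0, hX0⟩ := eventually_atTop.mp ((asym 1 (κ / 32) (by positivity)).and
    ((asym (128 * K0) (κ / 16) (by positivity)).and (eventually_ge_atTop 2)))
  have hev := (((tendsto_rpow_atTop hε0).comp
      (tendsto_natCast_atTop_atTop (R := ℝ))).eventually_ge_atTop (X0 : ℝ)).and
    ((eventually_ge_atTop 1).and (eventually_ge_atTop Q1))
  obtain ⟨Q0, hQ0⟩ := eventually_atTop.mp hev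
  refine ⟨c, hc0, by linarith, Q0, ?_⟩
  intro Q hQ f hf
  obtain ⟨v1, hQ1, hQQ⟩ := hQ0 Q hQ
  simp only [Function.comp] at v1
  obtain ⟨E, hE1, hE2⟩ := hall Q hQQ f hf
  have hq1 : (1:ℝ) ≤ Q := by exact_mod_cast hQ1
  refine ⟨E, hE1.trans (Real.rpow_le_rpow_of_exponent_le hq1 (by linarith)), ?_⟩
  intro l hl hlQ hlE x q h1 h2 h3 h4
  have hxX : X0 ≤ x := by exact_mod_cast v1.trans h1
  obtain ⟨w1, w2, hx2⟩ := hX0 x hxX
  have hx1 : (1:ℝ) ≤ x := by exact_mod_cast (by omega : 1 ≤ x)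
  have hx0 : (0:ℝ) < x := by linarith
  obtain ⟨r, hr⟩ : ∃ r : ℕ, r = Nat.clog 2 x := ⟨_, rfl⟩
  have hr1 : 1 ≤ r := by rw [hr]; exact Nat.clog_pos (by norm_num) hx2
  have hr2 : x ≤ 2 ^ r := by rw [hr]; exact Nat.le_pow_clog (by norm_num) x
  have hr3 : 2 ^ (r - 1) < x := by
    rw [hr]; exact Nat.pow_pred_clog_lt_self (by norm_num) hx2
  have hr4 : 2 ^ r ≤ 2 * x := by
    have : 2 ^ r = 2 * 2 ^ (r - 1) := by rw [← pow_succ']; congr 1; omega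
    omega
  have hq1' : 1 ≤ q := by
    have h5 : (1:ℝ) ≤ q := le_trans (Real.one_le_rpow hx1 hε0.le) h2
    exact_mod_cast h5
  have hxr : (x:ℝ) ≤ (2:ℝ) ^ r := by exact_mod_cast hr2
  have hrx : (2:ℝ) ^ r ≤ 2 * x := by exact_mod_cast hr4
  have g1 : (2:ℝ) ^ (ε * ((r:ℝ) - 1)) ≤ q := by
    have h5 : (2:ℝ) ^ (ε * ((r:ℝ) - 1)) = ((2:ℝ) ^ (r - 1)) ^ ε := by
      rw [← Real.rpow_natCast, ← Real.rpow_mul (by norm_num), Nat.cast_sub hr1]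
      congr 1
      push_cast
      ring
    rw [h5]
    refine le_trans (Real.rpow_le_rpow (by positivity) ?_ hε0.le) h2
    exact_mod_cast hr3.le
  have g2 : ((2:ℝ) ^ r) ^ 4 ≤ 16 * (q * (Q:ℝ) ^ (1 - ε)) := by
    calc ((2:ℝ) ^ r) ^ 4 ≤ (2 * x) ^ 4 := pow_le_pow_left₀ (by positivity) hrx 4
      _ = 16 * (x:ℝ) ^ 4 := by ring
      _ ≤ _ := by linarith
  obtain ⟨b1, b2, b3⟩ := hE2 l hl hlQ hlE r q (h1.trans hxr) hq1' (h3.trans hr2) g1 g2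
  have key := hdet r q x Q l f hf hr1 hr2 hr4 hq1' h3 h2 hl b1 b2 hlQ b3
  refine key.trans ?_
  have hrl : (r:ℝ) + 1 ≤ 2 * (x:ℝ) ^ (κ / 32) := by
    have h5 : r ≤ Nat.log 2 x + 1 := by
      rw [hr]; exact Nat.clog_le_of_le_pow (Nat.lt_pow_succ_log_self (by norm_num) x).le
    have h6 : (r:ℝ) ≤ ((Nat.log 2 x : ℕ) : ℝ) + 1 := by exact_mod_cast h5
    have h7 : (0:ℝ) ≤ ((Nat.log 2 x : ℕ) : ℝ) := Nat.cast_nonneg _
    rw [one_mul] at w1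
    linarith
  have hr6 : ((r:ℝ) + 1) ^ 6 ≤ 64 * (x:ℝ) ^ (6 * (κ / 32)) := by
    calc ((r:ℝ) + 1) ^ 6 ≤ (2 * (x:ℝ) ^ (κ / 32)) ^ 6 := pow_le_pow_left₀ (by positivity) hrl 6
      _ = 64 * (x:ℝ) ^ (6 * (κ / 32)) := by
          rw [mul_pow, ← Real.rpow_natCast ((x:ℝ) ^ (κ / 32)) 6, ← Real.rpow_mul hx0.le]
          norm_num
          ring_nf
  have hR : ((2:ℝ) ^ r) ^ (1 - κ / 2) ≤ 2 * (x:ℝ) ^ (1 - κ / 2) := by
    calc ((2:ℝ) ^ r) ^ (1 - κ / 2) ≤ (2 * (x:ℝ)) ^ (1 - κ / 2) :=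
          Real.rpow_le_rpow (by positivity) hrx (by linarith)
      _ = 2 ^ (1 - κ / 2) * (x:ℝ) ^ (1 - κ / 2) := Real.mul_rpow (by norm_num) hx0.le
      _ ≤ 2 * (x:ℝ) ^ (1 - κ / 2) := by
          apply mul_le_mul_of_nonneg_right _ (by positivity)
          calc (2:ℝ) ^ (1 - κ / 2) ≤ 2 ^ (1:ℝ) := Real.rpow_le_rpow_of_exponent_le (by norm_num) (by linarith)
            _ = 2 := Real.rpow_one 2
  have hK : 128 * K0 ≤ (x:ℝ) ^ (κ / 16) := by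
    have h7 : (0:ℝ) ≤ ((Nat.log 2 x : ℕ) : ℝ) := Nat.cast_nonneg _
    have : 128 * K0 * 1 ≤ 128 * K0 * (((Nat.log 2 x : ℕ) : ℝ) + 1) := by
      apply mul_le_mul_of_nonneg_left _ (by positivity)
      linarith
    linarith
  calc K0 * (((r:ℝ) + 1) ^ 6 * ((2:ℝ) ^ r) ^ (1 - κ / 2)) ≤
      K0 * ((64 * (x:ℝ) ^ (6 * (κ / 32))) * (2 * (x:ℝ) ^ (1 - κ / 2))) := by gcongr
    _ = (128 * K0) * ((x:ℝ) ^ (6 * (κ / 32)) * (x:ℝ) ^ (1 - κ / 2)) := by ring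
    _ ≤ (x:ℝ) ^ (κ / 16) * ((x:ℝ) ^ (6 * (κ / 32)) * (x:ℝ) ^ (1 - κ / 2)) := by gcongr
    _ = (x:ℝ) ^ (1 - κ / 4) := by
        rw [← Real.rpow_add hx0, ← Real.rpow_add hx0]
        congr 1
        ring
    _ ≤ (x:ℝ) ^ (1 - c) := Real.rpow_le_rpow_of_exponent_le hx1 (by linarith)

/-- a large value -/
lemma large_value (s : Finset ℕ) (S : ℕ → ℝ) (V : ℝ) (hs : 0 < s.card) (hV : 0 ≤ V)
    (h : V ≤ ∑ a ∈ s, S a ^ 2) : ∃ a ∈ s, √(V / s.card) ≤ |S a| := by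
  by_contra hcon
  push Not at hcon
  have h1 : ∀ a ∈ s, S a ^ 2 < V / s.card := by
    intro a ha
    have h2 := hcon a ha
    have h3 : |S a| ^ 2 < √(V / s.card) ^ 2 := pow_lt_pow_left₀ h2 (abs_nonneg _) (by norm_num)
    rwa [sq_abs, Real.sq_sqrt (by positivity)] at h3
  have hne : s.Nonempty := card_pos.mp hs
  have h4 : ∑ a ∈ s, S a ^ 2 < ∑ a ∈ s, V / s.card := sum_lt_sum_of_nonempty hne h1
  rw [sum_const, nsmul_eq_mul] at h4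
  have h5 : (s.card : ℝ) * (V / s.card) = V := by
    have : (s.card : ℝ) ≠ 0 := by exact_mod_cast hs.ne'
    field_simp
  linarith

theorem full (hB : BON) (hK : KER) (hE : EVN) (hM : MAX) (hN : NCP) (hL : LOW) (ε : ℝ) (hε0 : 0 < ε) :
    ∃ c : ℝ, 0 < c ∧ ∃ Q0 : ℕ, ∀ Q : ℕ, Q0 ≤ Q → ∀ f : ℕ → ℝ, (∀ n, |f n| ≤ 1) →
      ∃ E : Finset ℕ, (E.card : ℝ) ≤ (Q:ℝ) ^ (1 - c) ∧
        ∀ l : ℕ, l.Prime → l ≤ Q → l ∉ E → ∀ x q : ℕ, (Q:ℝ) ^ ε ≤ x → (x:ℝ) ^ ε ≤ q → q ≤ x →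
          (x:ℝ) ^ 4 ≤ q * (Q:ℝ) ^ (1 - ε) →
            |∑ a ∈ (range q).filter (fun a => Nat.Coprime a q), Sa f l x q a ^ 2 - Mx f x| ≤ (x:ℝ) ^ (1 - c) ∧
            ((∀ n, |f n| = 1) → ∃ a < q, Nat.Coprime a q ∧
              √((1 - ε) * (x * Real.log x) / Nat.totient q) ≤ |Sa f l x q a|) := by
  obtain ⟨e, he⟩ : ∃ e : ℝ, e = min ε 1 := ⟨_, rfl⟩
  have he0 : 0 < e := by rw [he, lt_min_iff]; exact ⟨hε0, one_pos⟩
  have he1 : e ≤ 1 := by rw [he]; exact min_le_right _ _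
  have heε : e ≤ ε := by rw [he]; exact min_le_left _ _
  obtain ⟨c, hc0, hc1, Q1, hmain⟩ := nat_main hB hK hE hM hN e he0 he1
  obtain ⟨x0, hx0⟩ := hL (ε / 2) (by positivity)
  -- the error is small
  have hlog : ∀ᶠ x : ℕ in atTop, (x:ℝ) ^ (1 - c) ≤ ε / 2 * (x * Real.log x) := by
    have h1 : ∀ᶠ x : ℕ in atTop, 2 / ε ≤ Real.log x :=
      (Real.tendsto_log_atTop.comp (tendsto_natCast_atTop_atTop (R := ℝ))).eventually_ge_atTop (2 / ε)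
    filter_upwards [h1, eventually_ge_atTop 1] with x h2 h3
    have hx1 : (1:ℝ) ≤ x := by exact_mod_cast h3
    have h4 : (x:ℝ) ^ (1 - c) ≤ x := by
      calc (x:ℝ) ^ (1 - c) ≤ (x:ℝ) ^ (1:ℝ) := Real.rpow_le_rpow_of_exponent_le hx1 (by linarith)
        _ = x := Real.rpow_one _
    have h5 : 1 ≤ ε / 2 * Real.log x := by
      have h6 : ε / 2 * (2 / ε) = 1 := by field_simp
      rw [← h6]
      exact mul_le_mul_of_nonneg_left h2 (by positivity)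
    calc (x:ℝ) ^ (1 - c) ≤ x * 1 := by rw [mul_one]; exact h4
      _ ≤ x * (ε / 2 * Real.log x) := by gcongr
      _ = _ := by ring
  obtain ⟨X1, hX1⟩ := eventually_atTop.mp (hlog.and (eventually_ge_atTop (max x0 1)))
  have hev := (((tendsto_rpow_atTop hε0).comp
      (tendsto_natCast_atTop_atTop (R := ℝ))).eventually_ge_atTop (X1 : ℝ)).and
    ((eventually_ge_atTop 1).and (eventually_ge_atTop Q1))
  obtain ⟨Q0, hQ0⟩ := eventually_atTop.mp hev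
  refine ⟨c, hc0, Q0, ?_⟩
  intro Q hQ f hf
  obtain ⟨v1, hQ1, hQQ⟩ := hQ0 Q hQ
  simp only [Function.comp] at v1
  obtain ⟨E, hE1, hE2⟩ := hmain Q hQQ f hf
  have hq1 : (1:ℝ) ≤ Q := by exact_mod_cast hQ1
  refine ⟨E, hE1, ?_⟩
  intro l hl hlQ hlE x q h1 h2 h3 h4
  have hxX : X1 ≤ x := by exact_mod_cast v1.trans h1
  obtain ⟨w1, w2⟩ := hX1 x hxX
  have hxx0 : x0 ≤ x := (le_max_left _ _).trans w2
  have hx1n : 1 ≤ x := (le_max_right _ _).trans w2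
  have hx1 : (1:ℝ) ≤ x := by exact_mod_cast hx1n
  have g1 : (Q:ℝ) ^ e ≤ x := (Real.rpow_le_rpow_of_exponent_le hq1 heε).trans h1
  have g2 : (x:ℝ) ^ e ≤ q := (Real.rpow_le_rpow_of_exponent_le hx1 heε).trans h2
  have g3 : (x:ℝ) ^ 4 ≤ q * (Q:ℝ) ^ (1 - e) := by
    refine h4.trans ?_
    apply mul_le_mul_of_nonneg_left _ (Nat.cast_nonneg _)
    exact Real.rpow_le_rpow_of_exponent_le hq1 (by linarith)
  have key := hE2 l hl hlQ hlE x q g1 g2 h3 g3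
  refine ⟨key, fun hf1 => ?_⟩
  have hq0 : 0 < q := by
    have h5 : (1:ℝ) ≤ q := le_trans (Real.one_le_rpow hx1 hε0.le) h2
    exact_mod_cast lt_of_lt_of_le one_pos h5
  have hM1 : (1 - ε / 2) * (x * Real.log x) ≤ Mx f x := by
    refine (hx0 x hxx0).trans (le_of_eq ?_)
    unfold Mx
    refine sum_congr rfl fun n _ => ?_
    rw [mul_pow, ← sq_abs (f n), hf1 n]
    ring
  have hlo : (1 - ε) * (x * Real.log x) ≤ ∑ a ∈ (range q).filter (fun a => Nat.Coprime a q), Sa f l x q a ^ 2 := by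
    have h5 := (abs_le.mp key).1
    have h6 : (1 - ε / 2) * (x * Real.log x) - ε / 2 * (x * Real.log x) = (1 - ε) * (x * Real.log x) := by ring
    linarith
  have hcard : ((range q).filter (fun a => Nat.Coprime a q)).card = Nat.totient q := by
    rw [Nat.totient_eq_card_coprime]
    congr 1
    apply filter_congr
    intro a _
    exact Nat.coprime_comm
  have hφ : 0 < Nat.totient q := Nat.totient_pos.mpr hq0
  by_cases hneg : 0 ≤ (1 - ε) * (x * Real.log x)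
  · obtain ⟨a, ha, hlarge⟩ := large_value _ (fun a => Sa f l x q a) _ (by rw [hcard]; exact hφ) hneg hlo
    rw [mem_filter, mem_range] at ha
    rw [hcard] at hlarge
    exact ⟨a, ha.1, ha.2, hlarge⟩
  · push Not at hneg
    have hne : ((range q).filter (fun a => Nat.Coprime a q)).Nonempty := by
      rw [← card_pos, hcard]; exact hφ
    obtain ⟨a, ha⟩ := hne
    rw [mem_filter, mem_range] at ha
    refine ⟨a, ha.1, ha.2, ?_⟩
    rw [Real.sqrt_eq_zero_of_nonpos (div_nonpos_of_nonpos_of_nonneg hneg.le (Nat.cast_nonneg _))]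
    exact abs_nonneg _

end Pool.Agent.L0h54.HV
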