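import Pool.Agent.L0h54.HV.Stm

set_option autoImplicit false

/-! Bonami's inequality for the random signs, and its application to quadratic forms. -/

namespace Pool.Agent.L0h54.HV

open Finset
open Pool.Agent.L0h41.MQ (sg)

/-- scaled Walsh polynomial -/
noncomputable def wal (r : ℝ) (c : Finset ℕ → ℝ) (B T : Finset ℕ) : ℝ :=
  ∑ S ∈ B.powerset, r ^ S.card * c S * ∏ p ∈ S, sg T p

lemma sg_ins_ne {T : Finset ℕ} {b p : ℕ} (h : p ≠ b) : sg (insert b T) p = sg T p := by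
  unfold sg
  by_cases hp : p ∈ T
  · rw [if_pos hp, if_pos (mem_insert_of_mem hp)]
  · rw [if_neg hp, if_neg]
    rw [mem_insert]
    rintro (h1 | h1)
    · exact h h1
    · exact hp h1

lemma wal_insert (r : ℝ) (c : Finset ℕ → ℝ) (B T : Finset ℕ) (b : ℕ) (hb : b ∉ B) :
    wal r c (insert b B) T = wal r c B T + r * (sg T b * wal r (fun S => c (insert b S)) B T) := by
  unfold wal
  rw [Finset.sum_powerset_insert hb, Finset.mul_sum, Finset.mul_sum]
  congr 1
  refine Finset.sum_congr rfl (fun S hS => ?_)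
  have hbS : b ∉ S := fun h => hb (Finset.mem_powerset.1 hS h)
  rw [Finset.card_insert_of_notMem hbS, Finset.prod_insert hbS]
  ring

lemma wal_ins_left (r : ℝ) (c : Finset ℕ → ℝ) (B T : Finset ℕ) (b : ℕ) (hb : b ∉ B) :
    wal r c B (insert b T) = wal r c B T := by
  unfold wal
  refine Finset.sum_congr rfl (fun S hS => ?_)
  have hbS : b ∉ S := fun h => hb (Finset.mem_powerset.1 hS h)
  congr 1
  refine Finset.prod_congr rfl fun p hp => ?_
  exact sg_ins_ne (fun h => hbS (h ▸ hp))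

/-- Bonami's inequality -/
theorem bon_ps (r : ℝ) (hr : r ^ 2 = 1 / 3) (B : Finset ℕ) : ∀ c : Finset ℕ → ℝ,
    ∑ T ∈ B.powerset, wal r c B T ^ 4 ≤ 2 ^ B.card * (∑ S ∈ B.powerset, c S ^ 2) ^ 2 := by
  induction B using Finset.induction_on with
  | empty =>
    intro c
    simp [wal]
    apply le_of_eq
    ring
  | insert b B hb ih =>
    intro c
    obtain ⟨d, hd⟩ : ∃ d : Finset ℕ → ℝ, d = fun S => c (insert b S) := ⟨_, rfl⟩
    rw [Finset.sum_powerset_insert hb, Finset.sum_powerset_insert hb, Finset.card_insert_of_notMem hb,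
      ← Finset.sum_add_distrib]
    have h1 : ∀ T ∈ B.powerset, wal r c (insert b B) T ^ 4 + wal r c (insert b B) (insert b T) ^ 4 =
        2 * wal r c B T ^ 4 + 4 * (wal r c B T ^ 2 * wal r d B T ^ 2) + 2 / 9 * wal r d B T ^ 4 := by
      intro T hT
      have hbT : b ∉ T := fun h => hb (Finset.mem_powerset.1 hT h)
      have e1 : sg T b = 1 := by unfold sg; rw [if_neg hbT]
      have e2 : sg (insert b T) b = -1 := by unfold sg; rw [if_pos (mem_insert_self _ _)]
      rw [wal_insert r c B T b hb, wal_insert r c B (insert b T) b hb, wal_ins_left r c B T b hb,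
        wal_ins_left r _ B T b hb, e1, e2, ← hd]
      have hr4 : r ^ 4 = 1 / 9 := by
        have : r ^ 4 = (r ^ 2) ^ 2 := by ring
        rw [this, hr]
        norm_num
      calc _ = 2 * wal r c B T ^ 4 + 12 * r ^ 2 * (wal r c B T ^ 2 * wal r d B T ^ 2) +
            2 * r ^ 4 * wal r d B T ^ 4 := by ring
        _ = _ := by rw [hr, hr4]; ring
    rw [Finset.sum_congr rfl h1, Finset.sum_add_distrib, Finset.sum_add_distrib, ← Finset.mul_sum, ← Finset.mul_sum,
      ← Finset.mul_sum]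
    have hU := ih c
    have hV := ih d
    have hd2 : ∑ S ∈ B.powerset, c (insert b S) ^ 2 = ∑ S ∈ B.powerset, d S ^ 2 := by rw [hd]
    rw [hd2]
    have hA : 0 ≤ ∑ S ∈ B.powerset, c S ^ 2 := Finset.sum_nonneg fun S _ => sq_nonneg _
    have hD : 0 ≤ ∑ S ∈ B.powerset, d S ^ 2 := Finset.sum_nonneg fun S _ => sq_nonneg _
    have hU0 : 0 ≤ ∑ T ∈ B.powerset, wal r c B T ^ 4 := Finset.sum_nonneg fun T _ => by positivity
    have hV0 : 0 ≤ ∑ T ∈ B.powerset, wal r d B T ^ 4 := Finset.sum_nonneg fun T _ => by positivity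
    have hcs := Finset.sum_mul_sq_le_sq_mul_sq B.powerset (fun T => wal r c B T ^ 2) (fun T => wal r d B T ^ 2)
    have e3 : ∀ T, (wal r c B T ^ 2) ^ 2 = wal r c B T ^ 4 := fun T => by ring
    have e4 : ∀ T, (wal r d B T ^ 2) ^ 2 = wal r d B T ^ 4 := fun T => by ring
    simp only [e3, e4] at hcs
    rw [pow_succ]
    generalize ∑ S ∈ B.powerset, c S ^ 2 = X at *
    generalize ∑ S ∈ B.powerset, d S ^ 2 = Y at *
    generalize ∑ T ∈ B.powerset, wal r c B T ^ 4 = U at *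
    generalize ∑ T ∈ B.powerset, wal r d B T ^ 4 = V at *
    generalize ∑ T ∈ B.powerset, wal r c B T ^ 2 * wal r d B T ^ 2 = W at *
    have h2 : (0 : ℝ) < 2 ^ B.card := by positivity
    generalize (2 : ℝ) ^ B.card = n at *
    have hW : W ≤ n * (X * Y) := by
      apply abs_le_of_sq_le_sq' _ (by positivity) |>.2
      calc W ^ 2 ≤ U * V := hcs
        _ ≤ (n * X ^ 2) * (n * Y ^ 2) := mul_le_mul hU hV hV0 (by positivity)
        _ = _ := by ring
    have hf : n * 2 * (X + Y) ^ 2 = 2 * (n * X ^ 2) + 4 * (n * (X * Y)) + 2 * (n * Y ^ 2) := by ring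
    rw [hf]
    linarith

lemma Pr_mem {N : ℕ} {w : ℕ × ℕ} (h : w ∈ Pr N) : w.1 ∈ (Icc 1 N).filter Nat.Prime ∧
    w.2 ∈ (Icc 1 N).filter Nat.Prime ∧ w.1 < w.2 := by
  unfold Pr at h
  rw [mem_filter, mem_product] at h
  exact ⟨h.1.1, h.1.2, h.2⟩

lemma pair_inj {a b c d : ℕ} (h1 : a < b) (h2 : c < d) (h : ({a, b} : Finset ℕ) = {c, d}) : a = c ∧ b = d := by
  have ha : a ∈ ({c, d} : Finset ℕ) := by rw [← h]; simp
  have hb : b ∈ ({c, d} : Finset ℕ) := by rw [← h]; simp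
  have hc : c ∈ ({a, b} : Finset ℕ) := by rw [h]; simp
  have hd : d ∈ ({a, b} : Finset ℕ) := by rw [h]; simp
  simp only [mem_insert, mem_singleton] at ha hb hc hd
  omega

/-- Bonami's inequality for quadratic forms -/
theorem bon_quad (N : ℕ) (K : ℕ × ℕ → ℝ) :
    ∑ T ∈ ((Icc 1 N).filter Nat.Prime).powerset, (∑ w ∈ Pr N, K w * (sg T w.1 * sg T w.2)) ^ 4 ≤
      2 ^ ((Icc 1 N).filter Nat.Prime).card * (81 * (∑ w ∈ Pr N, K w ^ 2) ^ 2) := by
  obtain ⟨I, hI⟩ : ∃ I, I = (Icc 1 N).filter Nat.Prime := ⟨_, rfl⟩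
  obtain ⟨c, hc⟩ : ∃ c : Finset ℕ → ℝ, c = fun S => ∑ w ∈ Pr N, if ({w.1, w.2} : Finset ℕ) = S then 3 * K w else 0 :=
    ⟨_, rfl⟩
  obtain ⟨r, hr⟩ : ∃ r : ℝ, r = √(1 / 3) := ⟨_, rfl⟩
  have hr2 : r ^ 2 = 1 / 3 := by rw [hr, Real.sq_sqrt (by norm_num)]
  rw [← hI]
  have hsub : ∀ w ∈ Pr N, ({w.1, w.2} : Finset ℕ) ∈ I.powerset := by
    intro w hw
    obtain ⟨h1, h2, h3⟩ := Pr_mem hw
    rw [mem_powerset, hI]
    intro p hp
    rw [mem_insert, mem_singleton] at hp
    rcases hp with rfl | rfl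
    · exact h1
    · exact h2
  have hcw : ∀ w ∈ Pr N, c {w.1, w.2} = 3 * K w := by
    intro w hw
    rw [hc]
    simp only
    rw [Finset.sum_eq_single w]
    · rw [if_pos rfl]
    · intro v hv hvw
      rw [if_neg]
      intro h
      have := pair_inj (Pr_mem hv).2.2 (Pr_mem hw).2.2 h
      exact hvw (Prod.ext this.1 this.2)
    · intro h
      exact absurd hw h
  have hgen : ∀ g : Finset ℕ → ℝ, ∑ S ∈ I.powerset, g S * c S = ∑ w ∈ Pr N, g {w.1, w.2} * (3 * K w) := by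
    intro g
    rw [hc]
    simp only [Finset.mul_sum]
    rw [Finset.sum_comm]
    refine Finset.sum_congr rfl fun w hw => ?_
    rw [Finset.sum_eq_single ({w.1, w.2} : Finset ℕ)]
    · rw [if_pos rfl]
    · intro S _ hS
      rw [if_neg (Ne.symm hS), mul_zero]
    · intro h
      exact absurd (hsub w hw) h
  have hw : ∀ T, wal r c I T = ∑ w ∈ Pr N, K w * (sg T w.1 * sg T w.2) := by
    intro T
    have h1 := hgen (fun S => r ^ S.card * ∏ p ∈ S, sg T p)
    have h2 : wal r c I T = ∑ S ∈ I.powerset, (r ^ S.card * ∏ p ∈ S, sg T p) * c S := by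
      unfold wal
      exact Finset.sum_congr rfl fun S _ => by ring
    rw [h2, h1]
    refine Finset.sum_congr rfl fun w hw => ?_
    have h3 := (Pr_mem hw).2.2
    rw [Finset.card_pair h3.ne, Finset.prod_pair h3.ne, hr2]
    ring
  have hs : ∑ S ∈ I.powerset, c S ^ 2 = 9 * ∑ w ∈ Pr N, K w ^ 2 := by
    have h1 := hgen c
    have h2 : ∑ S ∈ I.powerset, c S ^ 2 = ∑ S ∈ I.powerset, c S * c S := Finset.sum_congr rfl fun S _ => by ring
    rw [h2, h1, Finset.mul_sum]
    refine Finset.sum_congr rfl fun w hw => ?_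
    rw [hcw w hw]
    ring
  have hmain := bon_ps r hr2 I c
  simp only [hw] at hmain
  rw [hs] at hmain
  refine hmain.trans (le_of_eq ?_)
  ring

end Pool.Agent.L0h54.HV
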