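import Pool.Agent.L0h54.HV.Fin5
import Pool.Agent.L0h54.HV.Bon
import Pool.Agent.L0h56.HV.NCP
import Pool.Agent.L0h56.HV.LOW
import Pool.Agent.L0h57.HV.KER
import Pool.Agent.L0h68.HV.EVN
import Pool.Agent.L0h91.HV.DIA
import Pool.Agent.L0h91.HV.MAX
set_option autoImplicit false
namespace Pool.Agent.L0h54.HV

open Finset

theorem done (ε : ℝ) (hε0 : 0 < ε) :
    ∃ c : ℝ, 0 < c ∧ ∃ Q0 : ℕ, ∀ Q : ℕ, Q0 ≤ Q → ∀ f : ℕ → ℝ, (∀ n, |f n| ≤ 1) →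
      ∃ E : Finset ℕ, (E.card : ℝ) ≤ (Q:ℝ) ^ (1 - c) ∧
        ∀ l : ℕ, l.Prime → l ≤ Q → l ∉ E → ∀ x q : ℕ, (Q:ℝ) ^ ε ≤ x → (x:ℝ) ^ ε ≤ q → q ≤ x →
          (x:ℝ) ^ 4 ≤ q * (Q:ℝ) ^ (1 - ε) →
            |∑ a ∈ (range q).filter (fun a => Nat.Coprime a q), Sa f l x q a ^ 2 - Mx f x| ≤ (x:ℝ) ^ (1 - c) ∧
            ((∀ n, |f n| = 1) → ∃ a < q, Nat.Coprime a q ∧
              √((1 - ε) * (x * Real.log x) / Nat.totient q) ≤ |Sa f l x q a|) :=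
  full t_BON Pool.Agent.L0h57.HV.KERM.ker Pool.Agent.L0h68.HV.t_EVN
    (Pool.Agent.L0h91.HV.t_MAX Pool.Agent.L0h57.HV.KERM.ker Pool.Agent.L0h91.HV.t_DIA)
    Pool.Agent.L0h56.HV.t_NCP Pool.Agent.L0h56.HV.t_LOW ε hε0

end Pool.Agent.L0h54.HV
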