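import Pool.Agent.L0h54.HV.Stm

set_option autoImplicit false

/-! The exceptional primes for one scale and one modulus. -/

namespace Pool.Agent.L0h54.HV

open Finset
open scoped Classical
open Pool.Agent.H306R2.RZ (js LSB)
open Pool.Agent.L0h41.MQ (AP cf odd)
open ArithmeticFunction (vonMangoldt)

/-- the off-diagonal part -/
noncomputable def Df (N q y z : ℕ) (f : ℕ → ℝ) (l : ℕ) : ℝ := Vo N q y z f l - Dg N q y z f

/-- the primes with a large off-diagonal part -/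
noncomputable def BadI (N Q q y z : ℕ) (f : ℕ → ℝ) (T : ℝ) : Finset ℕ :=
  ((Ioc N Q).filter (fun l => l.Prime ∧ l ≠ 2)).filter (fun l => T < |Df N q y z f l|)

/-- the logarithms -/
noncomputable def Lg (N : ℕ) : ℝ := Real.log N ^ 2 * (Nat.log 2 N + 1)

lemma Lg_nonneg (N : ℕ) : 0 ≤ Lg N := by unfold Lg; positivity

lemma badI_card (hB : BON) (hK : KER) (N Q M q y z : ℕ) (B T : ℝ) (f : ℕ → ℝ) (hf : ∀ n, |f n| ≤ 1) (hN : 2 ≤ N)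
    (hq : 1 ≤ q) (hyz : y ≤ z) (hz : z ≤ N) (hB0 : 0 ≤ B) (hLS : LSB M Q B) (hM : N ^ 4 ≤ M) (hT : 0 < T) :
    ((BadI N Q q y z f T).card : ℝ) ≤ B * (1296 * Lg N ^ 4) * (((z:ℝ) - y) ^ 4 / q ^ 2) / T ^ 4 := by
  obtain ⟨h1, h2, -⟩ := hK N q y z f hf hN hq hyz hz
  have hP : ∀ l ∈ (Ioc N Q).filter (fun l => l.Prime ∧ l ≠ 2), l.Prime ∧ l ≠ 2 ∧ N < l ∧ l ≤ Q := by
    intro l hl
    rw [mem_filter, mem_Ioc] at hl
    exact ⟨hl.2.1, hl.2.2, hl.1.1, hl.1.2⟩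
  have h3 := hB N M Q B hB0 hLS hM (Ke q y z f) ((Ioc N Q).filter (fun l => l.Prime ∧ l ≠ 2)) hP
  have h4 : ((BadI N Q q y z f T).card : ℝ) * T ^ 4 ≤
      ∑ l ∈ (Ioc N Q).filter (fun l => l.Prime ∧ l ≠ 2),
        (∑ w ∈ Pr N, Ke q y z f w * (js (w.1 : ℤ) l * js (w.2 : ℤ) l)) ^ 4 := by
    rw [← nsmul_eq_mul, ← sum_const]
    have h5 : ∀ l ∈ BadI N Q q y z f T, T ^ 4 ≤
        (∑ w ∈ Pr N, Ke q y z f w * (js (w.1 : ℤ) l * js (w.2 : ℤ) l)) ^ 4 := by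
      intro l hl
      unfold BadI at hl
      rw [mem_filter] at hl
      have h6 := hP l hl.1
      have h7 : Df N q y z f l = ∑ w ∈ Pr N, Ke q y z f w * (js (w.1 : ℤ) l * js (w.2 : ℤ) l) := by
        unfold Df
        rw [h1 l h6.1 h6.2.2.1]
        ring
      rw [← h7]
      calc T ^ 4 ≤ |Df N q y z f l| ^ 4 := pow_le_pow_left₀ hT.le hl.2.le 4
        _ = Df N q y z f l ^ 4 := by
            rw [← abs_pow, abs_of_nonneg (by positivity)]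
    refine (sum_le_sum h5).trans ?_
    apply sum_le_sum_of_subset_of_nonneg
    · unfold BadI; exact filter_subset _ _
    · intro l _ _; positivity
  rw [le_div_iff₀ (by positivity)]
  refine h4.trans (h3.trans ?_)
  have h8 : (∑ w ∈ Pr N, Ke q y z f w ^ 2) ^ 2 ≤ (4 * Lg N ^ 2 * (((z:ℝ) - y) ^ 2 / q)) ^ 2 := by
    apply pow_le_pow_left₀ (sum_nonneg fun _ _ => by positivity)
    exact h2
  have h9 : (4 * Lg N ^ 2 * (((z:ℝ) - y) ^ 2 / q)) ^ 2 = 16 * Lg N ^ 4 * (((z:ℝ) - y) ^ 4 / q ^ 2) := by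
    have hq0 : (q:ℝ) ≠ 0 := by exact_mod_cast (by omega : q ≠ 0)
    field_simp
    ring
  rw [h9] at h8
  calc B * (81 * (∑ w ∈ Pr N, Ke q y z f w ^ 2) ^ 2) ≤
      B * (81 * (16 * Lg N ^ 4 * (((z:ℝ) - y) ^ 4 / q ^ 2))) := by gcongr
    _ = B * (1296 * Lg N ^ 4) * (((z:ℝ) - y) ^ 4 / q ^ 2) := by ring

/-- the exceptional primes for one scale and one modulus -/
noncomputable def BadQ (r j0 Q q : ℕ) (f : ℕ → ℝ) (T : ℝ) : Finset ℕ :=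
  ((range (j0 + 1)).biUnion fun j => (range (2 ^ (r - j))).biUnion fun u =>
    BadI (2 ^ r) Q q (u * 2 ^ j) ((u + 1) * 2 ^ j) f T) ∪
  ((range (2 ^ (r - j0) + 1)).biUnion fun u => BadI (2 ^ r) Q q 0 (u * 2 ^ j0) f T)

lemma Lg_le (r : ℕ) : Lg (2 ^ r) ≤ ((r:ℝ) + 1) ^ 3 := by
  unfold Lg
  have h1 : Nat.log 2 (2 ^ r) = r := Nat.log_pow (by norm_num) r
  rw [h1]
  have h2 : Real.log ((2 ^ r : ℕ) : ℝ) ≤ (r:ℝ) + 1 := by
    push_cast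
    rw [Real.log_pow]
    have h3 := Real.log_two_lt_d9
    have : (0:ℝ) ≤ r := Nat.cast_nonneg r
    nlinarith
  have h4 : 0 ≤ Real.log ((2 ^ r : ℕ) : ℝ) := Real.log_nonneg (by exact_mod_cast Nat.one_le_two_pow)
  calc Real.log ((2 ^ r : ℕ) : ℝ) ^ 2 * ((r:ℝ) + 1) ≤ ((r:ℝ) + 1) ^ 2 * ((r:ℝ) + 1) := by gcongr
    _ = ((r:ℝ) + 1) ^ 3 := by ring

lemma badQ_card (hB : BON) (hK : KER) (r j0 Q q : ℕ) (B T : ℝ) (f : ℕ → ℝ) (hf : ∀ n, |f n| ≤ 1) (hr : 1 ≤ r)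
    (hj : j0 ≤ r) (hq : 1 ≤ q) (hB0 : 0 ≤ B) (hLS : LSB ((2 ^ r) ^ 4) Q B) (hT : 0 < T) :
    ((BadQ r j0 Q q f T).card : ℝ) ≤
      B * (3888 * ((r:ℝ) + 1) ^ 13) * (((2:ℝ) ^ r) ^ 4 * 2 ^ (r - j0)) / (q ^ 2 * T ^ 4) := by
  have hN : 2 ≤ 2 ^ r := by
    calc 2 = 2 ^ 1 := rfl
      _ ≤ 2 ^ r := Nat.pow_le_pow_right (by norm_num) hr
  have hq0 : (0:ℝ) < q := by exact_mod_cast hq
  obtain ⟨A, hA⟩ : ∃ A : ℝ, A = B * (1296 * ((r:ℝ) + 1) ^ 12) / (q ^ 2 * T ^ 4) := ⟨_, rfl⟩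
  have hA0 : 0 ≤ A := by rw [hA]; positivity
  have key : ∀ y z : ℕ, y ≤ z → z ≤ 2 ^ r → ((BadI (2 ^ r) Q q y z f T).card : ℝ) ≤ A * ((z:ℝ) - y) ^ 4 := by
    intro y z hyz hz
    have h1 := badI_card hB hK (2 ^ r) Q ((2 ^ r) ^ 4) q y z B T f hf hN hq hyz hz hB0 hLS le_rfl hT
    have h2 : Lg (2 ^ r) ^ 4 ≤ ((r:ℝ) + 1) ^ 12 := by
      calc Lg (2 ^ r) ^ 4 ≤ (((r:ℝ) + 1) ^ 3) ^ 4 := pow_le_pow_left₀ (Lg_nonneg _) (Lg_le r) 4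
        _ = _ := by rw [← pow_mul]
    have h3 : 0 ≤ ((z:ℝ) - y) ^ 4 := by positivity
    calc ((BadI (2 ^ r) Q q y z f T).card : ℝ) ≤
        B * (1296 * Lg (2 ^ r) ^ 4) * (((z:ℝ) - y) ^ 4 / q ^ 2) / T ^ 4 := h1
      _ ≤ B * (1296 * ((r:ℝ) + 1) ^ 12) * (((z:ℝ) - y) ^ 4 / q ^ 2) / T ^ 4 := by gcongr
      _ = A * ((z:ℝ) - y) ^ 4 := by rw [hA]; field_simp
  obtain ⟨R, hR⟩ : ∃ R : ℝ, R = (2:ℝ) ^ r := ⟨_, rfl⟩
  have hR1 : 1 ≤ R := by rw [hR]; exact one_le_pow₀ (by norm_num)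
  have p1 : (((range (j0 + 1)).biUnion fun j => (range (2 ^ (r - j))).biUnion fun u =>
      BadI (2 ^ r) Q q (u * 2 ^ j) ((u + 1) * 2 ^ j) f T).card : ℝ) ≤ A * (((r:ℝ) + 1) * R ^ 4) := by
    have h1 : (((range (j0 + 1)).biUnion fun j => (range (2 ^ (r - j))).biUnion fun u =>
        BadI (2 ^ r) Q q (u * 2 ^ j) ((u + 1) * 2 ^ j) f T).card : ℝ) ≤
        ∑ j ∈ range (j0 + 1), ∑ u ∈ range (2 ^ (r - j)),
          ((BadI (2 ^ r) Q q (u * 2 ^ j) ((u + 1) * 2 ^ j) f T).card : ℝ) := by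
      have : ((range (j0 + 1)).biUnion fun j => (range (2 ^ (r - j))).biUnion fun u =>
        BadI (2 ^ r) Q q (u * 2 ^ j) ((u + 1) * 2 ^ j) f T).card ≤
        ∑ j ∈ range (j0 + 1), ∑ u ∈ range (2 ^ (r - j)),
          (BadI (2 ^ r) Q q (u * 2 ^ j) ((u + 1) * 2 ^ j) f T).card :=
        card_biUnion_le.trans (sum_le_sum fun j _ => card_biUnion_le)
      exact_mod_cast this
    have h2 : ∀ j ∈ range (j0 + 1), ∑ u ∈ range (2 ^ (r - j)),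
        ((BadI (2 ^ r) Q q (u * 2 ^ j) ((u + 1) * 2 ^ j) f T).card : ℝ) ≤ A * R ^ 4 := by
      intro j hj'
      have hjr : j ≤ r := by have := mem_range.mp hj'; omega
      have h3 : ∀ u ∈ range (2 ^ (r - j)),
          ((BadI (2 ^ r) Q q (u * 2 ^ j) ((u + 1) * 2 ^ j) f T).card : ℝ) ≤ A * ((2:ℝ) ^ j) ^ 4 := by
        intro u hu
        have hu' := mem_range.mp hu
        have h4 := key (u * 2 ^ j) ((u + 1) * 2 ^ j) (Nat.mul_le_mul_right _ (by omega)) (by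
          calc (u + 1) * 2 ^ j ≤ 2 ^ (r - j) * 2 ^ j := Nat.mul_le_mul_right _ (by omega)
            _ = 2 ^ r := by rw [← pow_add]; congr 1; omega)
        refine h4.trans (le_of_eq ?_)
        push_cast
        ring
      refine (sum_le_sum h3).trans ?_
      rw [sum_const, card_range, nsmul_eq_mul]
      have e : (2:ℝ) ^ (r - j) * 2 ^ j = R := by rw [← pow_add, hR]; congr 1; omega
      have h5 : (2:ℝ) ^ j ≤ R := by rw [hR]; exact pow_le_pow_right₀ (by norm_num) hjr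
      calc ((2 ^ (r - j) : ℕ) : ℝ) * (A * ((2:ℝ) ^ j) ^ 4) =
          A * (((2:ℝ) ^ (r - j) * 2 ^ j) * ((2:ℝ) ^ j) ^ 3) := by push_cast; ring
        _ = A * (R * ((2:ℝ) ^ j) ^ 3) := by rw [e]
        _ ≤ A * (R * R ^ 3) := by gcongr
        _ = A * R ^ 4 := by ring
    refine h1.trans ((sum_le_sum h2).trans ?_)
    rw [sum_const, card_range, nsmul_eq_mul]
    have h6 : ((j0 + 1 : ℕ) : ℝ) ≤ (r:ℝ) + 1 := by exact_mod_cast Nat.succ_le_succ hj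
    calc ((j0 + 1 : ℕ) : ℝ) * (A * R ^ 4) ≤ ((r:ℝ) + 1) * (A * R ^ 4) := by gcongr
      _ = _ := by ring
  have p2 : (((range (2 ^ (r - j0) + 1)).biUnion fun u => BadI (2 ^ r) Q q 0 (u * 2 ^ j0) f T).card : ℝ) ≤
      A * ((2 * 2 ^ (r - j0)) * R ^ 4) := by
    have h1 : (((range (2 ^ (r - j0) + 1)).biUnion fun u => BadI (2 ^ r) Q q 0 (u * 2 ^ j0) f T).card : ℝ) ≤
        ∑ u ∈ range (2 ^ (r - j0) + 1), ((BadI (2 ^ r) Q q 0 (u * 2 ^ j0) f T).card : ℝ) := by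
      exact_mod_cast card_biUnion_le
    have h2 : ∀ u ∈ range (2 ^ (r - j0) + 1), ((BadI (2 ^ r) Q q 0 (u * 2 ^ j0) f T).card : ℝ) ≤ A * R ^ 4 := by
      intro u hu
      have hu' := mem_range.mp hu
      have h3 : u * 2 ^ j0 ≤ 2 ^ r := by
        calc u * 2 ^ j0 ≤ 2 ^ (r - j0) * 2 ^ j0 := Nat.mul_le_mul_right _ (by omega)
          _ = 2 ^ r := by rw [← pow_add]; congr 1; omega
      refine (key 0 (u * 2 ^ j0) (by omega) h3).trans ?_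
      apply mul_le_mul_of_nonneg_left _ hA0
      apply pow_le_pow_left₀
      · push_cast
        have : (0:ℝ) ≤ (u:ℝ) * 2 ^ j0 := by positivity
        linarith
      · have h4 : ((u * 2 ^ j0 : ℕ) : ℝ) ≤ R := by rw [hR]; exact_mod_cast h3
        have h5 : ((0:ℕ):ℝ) = 0 := by norm_num
        rw [h5]
        linarith
    refine h1.trans ((sum_le_sum h2).trans ?_)
    rw [sum_const, card_range, nsmul_eq_mul]
    have h6 : ((2 ^ (r - j0) + 1 : ℕ) : ℝ) ≤ 2 * 2 ^ (r - j0) := by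
      push_cast
      have : (1:ℝ) ≤ 2 ^ (r - j0) := one_le_pow₀ (by norm_num)
      linarith
    calc ((2 ^ (r - j0) + 1 : ℕ) : ℝ) * (A * R ^ 4) ≤ (2 * 2 ^ (r - j0)) * (A * R ^ 4) := by gcongr
      _ = _ := by ring
  have p3 : ((BadQ r j0 Q q f T).card : ℝ) ≤ A * (((r:ℝ) + 1) * R ^ 4) + A * ((2 * 2 ^ (r - j0)) * R ^ 4) := by
    have h1 : ((BadQ r j0 Q q f T).card : ℝ) ≤ (((range (j0 + 1)).biUnion fun j => (range (2 ^ (r - j))).biUnion fun u =>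
      BadI (2 ^ r) Q q (u * 2 ^ j) ((u + 1) * 2 ^ j) f T).card : ℝ) +
      (((range (2 ^ (r - j0) + 1)).biUnion fun u => BadI (2 ^ r) Q q 0 (u * 2 ^ j0) f T).card : ℝ) := by
      unfold BadQ
      exact_mod_cast card_union_le _ _
    linarith
  refine p3.trans ?_
  have h7 : (1:ℝ) ≤ 2 ^ (r - j0) := one_le_pow₀ (by norm_num)
  have h8 : (0:ℝ) ≤ r := Nat.cast_nonneg r
  have h9 : ((r:ℝ) + 1) * R ^ 4 + (2 * 2 ^ (r - j0)) * R ^ 4 ≤ 3 * (((r:ℝ) + 1) * (R ^ 4 * 2 ^ (r - j0))) := by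
    have hR4 : 0 ≤ R ^ 4 := by positivity
    have : ((r:ℝ) + 1) + 2 * 2 ^ (r - j0) ≤ 3 * (((r:ℝ) + 1) * 2 ^ (r - j0)) := by
      nlinarith [mul_nonneg h8 (by linarith : (0:ℝ) ≤ 2 ^ (r - j0) - 1)]
    calc ((r:ℝ) + 1) * R ^ 4 + (2 * 2 ^ (r - j0)) * R ^ 4 = (((r:ℝ) + 1) + 2 * 2 ^ (r - j0)) * R ^ 4 := by ring
      _ ≤ (3 * (((r:ℝ) + 1) * 2 ^ (r - j0))) * R ^ 4 := by gcongr
      _ = _ := by ring
  calc A * (((r:ℝ) + 1) * R ^ 4) + A * ((2 * 2 ^ (r - j0)) * R ^ 4) =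
      A * (((r:ℝ) + 1) * R ^ 4 + (2 * 2 ^ (r - j0)) * R ^ 4) := by ring
    _ ≤ A * (3 * (((r:ℝ) + 1) * (R ^ 4 * 2 ^ (r - j0)))) := by gcongr
    _ = B * (3888 * ((r:ℝ) + 1) ^ 13) * (R ^ 4 * 2 ^ (r - j0)) / (q ^ 2 * T ^ 4) := by
        rw [hA]
        field_simp
        ring
    _ = _ := by rw [hR]

end Pool.Agent.L0h54.HV
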