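import Pool.Agent.L0h54.HV.Fin1

set_option autoImplicit false

/-! The exceptional primes for one scale. -/

namespace Pool.Agent.L0h54.HV

open Finset
open scoped Classical
open Pool.Agent.H306R2.RZ (js LSB)

/-- the threshold -/
noncomputable def Tr (κ : ℝ) (r : ℕ) : ℝ := (2:ℝ) ^ ((1 - κ) * r)

/-- the level of the blocks -/
noncomputable def jr (κ : ℝ) (r : ℕ) : ℕ := ⌊(1 - κ) * r⌋₊

/-- the moduli -/
noncomputable def Qs (ε : ℝ) (Q r : ℕ) : Finset ℕ :=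
  (Icc 1 (2 ^ r)).filter (fun q : ℕ => (2:ℝ) ^ (ε * ((r:ℝ) - 1)) ≤ q ∧
    ((2:ℝ) ^ r) ^ 4 ≤ 16 * (q * (Q:ℝ) ^ (1 - ε)))

/-- the exceptional primes for one scale -/
noncomputable def Er (ε κ : ℝ) (Q r : ℕ) (f : ℕ → ℝ) : Finset ℕ :=
  (Qs ε Q r).biUnion fun q => BadQ r (jr κ r) Q q f (Tr κ r)

lemma Tr_pos (κ : ℝ) (r : ℕ) : 0 < Tr κ r := by unfold Tr; positivity

lemma jr_le (κ : ℝ) (r : ℕ) (h0 : 0 ≤ κ) (h1 : κ ≤ 1) : jr κ r ≤ r := by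
  unfold jr
  apply Nat.floor_le_of_le
  have : (0:ℝ) ≤ r := Nat.cast_nonneg r
  nlinarith

lemma two_jr_le (κ : ℝ) (r : ℕ) (h1 : κ ≤ 1) : (2:ℝ) ^ jr κ r ≤ Tr κ r := by
  unfold jr Tr
  rw [← Real.rpow_natCast]
  apply Real.rpow_le_rpow_of_exponent_le (by norm_num)
  apply Nat.floor_le
  have : (0:ℝ) ≤ r := Nat.cast_nonneg r
  have : 0 ≤ 1 - κ := by linarith
  positivity

lemma two_sub_jr (κ : ℝ) (r : ℕ) (h0 : 0 ≤ κ) (h1 : κ ≤ 1) :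
    (2:ℝ) ^ (r - jr κ r) ≤ 2 * ((2:ℝ) ^ r) ^ κ := by
  have h2 := jr_le κ r h0 h1
  have h3 : (1 - κ) * r < jr κ r + 1 := Nat.lt_floor_add_one _
  rw [← Real.rpow_natCast, Nat.cast_sub h2]
  have e : (2:ℝ) * ((2:ℝ) ^ r) ^ κ = (2:ℝ) ^ (1 + κ * r) := by
    rw [Real.rpow_add (by norm_num), Real.rpow_one, ← Real.rpow_natCast, ← Real.rpow_mul (by norm_num),
      mul_comm κ]
  rw [e]
  apply Real.rpow_le_rpow_of_exponent_le (by norm_num)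
  linarith

lemma sum_inv_le (r : ℕ) : ∑ q ∈ Icc (1:ℕ) (2 ^ r), 1 / (q:ℝ) ≤ (r:ℝ) + 1 := by
  have h1 := harmonic_le_one_add_log (2 ^ r)
  have h2 : ((harmonic (2 ^ r) : ℚ) : ℝ) = ∑ q ∈ Icc (1:ℕ) (2 ^ r), 1 / (q:ℝ) := by
    rw [harmonic_eq_sum_Icc]
    push_cast
    exact sum_congr rfl fun q _ => by rw [one_div]
  rw [h2] at h1
  push_cast at h1
  rw [Real.log_pow] at h1
  have h3 := Real.log_two_lt_d9
  have h4 : (0:ℝ) ≤ r := Nat.cast_nonneg r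
  nlinarith

theorem scale_card (hB : BON) (hK : KER) (ε κ η C : ℝ) (hC : 0 < C)
    (hLS : ∀ M Q : ℕ, 1 ≤ M → 1 ≤ Q → LSB M Q (C * ((M:ℝ) * Q) ^ η * ((M:ℝ) + Q)))
    (hε0 : 0 < ε) (hε1 : ε ≤ 1) (hκ0 : 0 < κ) (hκ1 : κ ≤ 1) (hη : 0 < η) (r Q : ℕ) (f : ℕ → ℝ)
    (hf : ∀ n, |f n| ≤ 1) (hr : 1 ≤ r) (hQ : 1 ≤ Q) (h1 : (Q:ℝ) ^ ε ≤ (2:ℝ) ^ r) (h2 : (2:ℝ) ^ r ≤ Q) :
    ((Er ε κ Q r f).card : ℝ) ≤ C * 139968 * ((r:ℝ) + 1) ^ 14 * (Q:ℝ) ^ (1 - ε ^ 2 + 5 * η + 5 * κ) := by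
  obtain ⟨R, hR⟩ : ∃ R : ℝ, R = (2:ℝ) ^ r := ⟨_, rfl⟩
  obtain ⟨q0, hq0⟩ : ∃ q0 : ℝ, q0 = (Q:ℝ) := ⟨_, rfl⟩
  rw [← hR] at h1 h2
  rw [← hq0] at h1 h2 ⊢
  have hq1 : 1 ≤ q0 := by rw [hq0]; exact_mod_cast hQ
  have hqp : 0 < q0 := by linarith
  have hR1 : 1 ≤ R := by rw [hR]; exact one_le_pow₀ (by norm_num)
  have hRp : 0 < R := by linarith
  obtain ⟨B, hBd⟩ : ∃ B : ℝ, B = C * ((((2 ^ r) ^ 4 : ℕ) : ℝ) * Q) ^ η * ((((2 ^ r) ^ 4 : ℕ) : ℝ) + Q) := ⟨_, rfl⟩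
  have hL := hLS ((2 ^ r) ^ 4) Q (Nat.one_le_pow _ _ Nat.one_le_two_pow) hQ
  rw [← hBd] at hL
  have hB0 : 0 ≤ B := by rw [hBd]; positivity
  have hBe : B = C * (R ^ 4 * q0) ^ η * (R ^ 4 + q0) := by
    rw [hBd, hR, hq0]; push_cast; rfl
  -- one modulus
  obtain ⟨Y, hY⟩ : ∃ Y : ℝ, Y = (2:ℝ) ^ (ε * ((r:ℝ) - 1)) := ⟨_, rfl⟩
  have hYp : 0 < Y := by rw [hY]; positivity
  have hTe : R ^ 4 / Tr κ r ^ 4 = R ^ (4 * κ) := by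
    have e1 : Tr κ r = R ^ (1 - κ) := by
      unfold Tr
      rw [hR, ← Real.rpow_natCast, ← Real.rpow_mul (by norm_num), mul_comm]
    rw [e1, ← Real.rpow_natCast R 4, ← Real.rpow_natCast (R ^ (1 - κ)) 4, ← Real.rpow_mul hRp.le,
      ← Real.rpow_sub hRp]
    congr 1
    push_cast
    ring
  have hTp := Tr_pos κ r
  obtain ⟨G, hG⟩ : ∃ G : ℝ, G = C * (R ^ 4 * q0) ^ η * (7776 * ((r:ℝ) + 1) ^ 13) * R ^ (5 * κ) *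
      (16 * q0 ^ (1 - ε) + q0 / Y) := ⟨_, rfl⟩
  have hone : ∀ q ∈ Qs ε Q r, ((BadQ r (jr κ r) Q q f (Tr κ r)).card : ℝ) ≤ G * (1 / q) := by
    intro q hq
    unfold Qs at hq
    rw [mem_filter, mem_Icc] at hq
    obtain ⟨⟨hq1', hq2⟩, hq3, hq4⟩ := hq
    have hqpos : (0:ℝ) < q := by exact_mod_cast hq1'
    have h3 := badQ_card hB hK r (jr κ r) Q q B (Tr κ r) f hf hr (jr_le κ r hκ0.le hκ1) hq1' hB0 hL hTp
    rw [← hR] at h3 hq4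
    rw [← hq0] at hq4
    rw [← hY] at hq3
    have h4 := two_sub_jr κ r hκ0.le hκ1
    rw [← hR] at h4
    have e2 : B * (3888 * ((r:ℝ) + 1) ^ 13) * (R ^ 4 * 2 ^ (r - jr κ r)) / (q ^ 2 * Tr κ r ^ 4) =
        B * (3888 * ((r:ℝ) + 1) ^ 13) * ((R ^ 4 / Tr κ r ^ 4) * 2 ^ (r - jr κ r)) / q ^ 2 := by
      field_simp
    rw [e2, hTe] at h3
    have h5 : R ^ (4 * κ) * 2 ^ (r - jr κ r) ≤ 2 * R ^ (5 * κ) := by
      calc R ^ (4 * κ) * 2 ^ (r - jr κ r) ≤ R ^ (4 * κ) * (2 * R ^ κ) := by gcongr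
        _ = 2 * (R ^ (4 * κ) * R ^ κ) := by ring
        _ = 2 * R ^ (5 * κ) := by rw [← Real.rpow_add hRp]; congr 2; ring
    have h6 : (R ^ 4 + q0) / q ^ 2 ≤ (16 * q0 ^ (1 - ε) + q0 / Y) * (1 / q) := by
      rw [div_le_iff₀ (by positivity)]
      have h7 : q0 ≤ q0 / Y * q := by
        rw [div_mul_eq_mul_div, le_div_iff₀ hYp]
        gcongr
      have e3 : (16 * q0 ^ (1 - ε) + q0 / Y) * (1 / q) * (q:ℝ) ^ 2 = 16 * (q * q0 ^ (1 - ε)) + q0 / Y * q := by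
        field_simp
      rw [e3]
      linarith
    calc ((BadQ r (jr κ r) Q q f (Tr κ r)).card : ℝ) ≤
        B * (3888 * ((r:ℝ) + 1) ^ 13) * (R ^ (4 * κ) * 2 ^ (r - jr κ r)) / q ^ 2 := h3
      _ ≤ B * (3888 * ((r:ℝ) + 1) ^ 13) * (2 * R ^ (5 * κ)) / q ^ 2 := by gcongr
      _ = (C * (R ^ 4 * q0) ^ η * (7776 * ((r:ℝ) + 1) ^ 13) * R ^ (5 * κ)) * ((R ^ 4 + q0) / q ^ 2) := by
          rw [hBe]; ring
      _ ≤ (C * (R ^ 4 * q0) ^ η * (7776 * ((r:ℝ) + 1) ^ 13) * R ^ (5 * κ)) *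
          ((16 * q0 ^ (1 - ε) + q0 / Y) * (1 / q)) := by gcongr
      _ = G * (1 / q) := by rw [hG]; ring
  have hG0 : 0 ≤ G := by rw [hG]; positivity
  have hsum : ((Er ε κ Q r f).card : ℝ) ≤ G * ((r:ℝ) + 1) := by
    have h3 : ((Er ε κ Q r f).card : ℝ) ≤ ∑ q ∈ Qs ε Q r, ((BadQ r (jr κ r) Q q f (Tr κ r)).card : ℝ) := by
      unfold Er
      exact_mod_cast card_biUnion_le
    refine h3.trans ((sum_le_sum hone).trans ?_)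
    rw [← mul_sum]
    apply mul_le_mul_of_nonneg_left _ hG0
    refine le_trans ?_ (sum_inv_le r)
    apply sum_le_sum_of_subset_of_nonneg
    · unfold Qs; exact filter_subset _ _
    · intro q _ _; positivity
  refine hsum.trans ?_
  have b1 : (R ^ 4 * q0) ^ η ≤ q0 ^ (5 * η) := by
    calc (R ^ 4 * q0) ^ η ≤ (q0 ^ 4 * q0) ^ η := by gcongr
      _ = q0 ^ (5 * η) := by
          rw [← pow_succ, ← Real.rpow_natCast, ← Real.rpow_mul hqp.le]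
          norm_num
  have b2 : R ^ (5 * κ) ≤ q0 ^ (5 * κ) := by gcongr
  have b3 : q0 / Y ≤ 2 * q0 ^ (1 - ε ^ 2) := by
    have e4 : Y = R ^ ε * 2 ^ (-ε) := by
      rw [hY, hR, ← Real.rpow_natCast, ← Real.rpow_mul (by norm_num), ← Real.rpow_add (by norm_num)]
      congr 1
      ring
    have h5 : q0 ^ (ε ^ 2) ≤ R ^ ε := by
      calc q0 ^ (ε ^ 2) = (q0 ^ ε) ^ ε := by rw [← Real.rpow_mul hqp.le]; congr 1; ring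
        _ ≤ R ^ ε := by gcongr
    have h6 : (1:ℝ) / 2 ≤ 2 ^ (-ε) := by
      have : (2:ℝ) ^ (-(1:ℝ)) ≤ 2 ^ (-ε) := Real.rpow_le_rpow_of_exponent_le (by norm_num) (by linarith)
      rw [Real.rpow_neg (by norm_num), Real.rpow_one] at this
      linarith
    rw [div_le_iff₀ hYp, e4]
    have h7 : q0 ^ (1 - ε ^ 2) * q0 ^ (ε ^ 2) = q0 := by
      rw [← Real.rpow_add hqp]; simp
    have h8 : 0 < q0 ^ (1 - ε ^ 2) := by positivity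
    calc q0 = q0 ^ (1 - ε ^ 2) * q0 ^ (ε ^ 2) := h7.symm
      _ = 2 * q0 ^ (1 - ε ^ 2) * (q0 ^ (ε ^ 2) * (1 / 2)) := by ring
      _ ≤ 2 * q0 ^ (1 - ε ^ 2) * (R ^ ε * 2 ^ (-ε)) := by gcongr
  have b4 : q0 ^ (1 - ε) ≤ q0 ^ (1 - ε ^ 2) := by
    apply Real.rpow_le_rpow_of_exponent_le hq1
    nlinarith
  have b5 : 16 * q0 ^ (1 - ε) + q0 / Y ≤ 18 * q0 ^ (1 - ε ^ 2) := by linarith
  calc G * ((r:ℝ) + 1) ≤ (C * q0 ^ (5 * η) * (7776 * ((r:ℝ) + 1) ^ 13) * q0 ^ (5 * κ) *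
      (18 * q0 ^ (1 - ε ^ 2))) * ((r:ℝ) + 1) := by
        rw [hG]; gcongr
    _ = C * 139968 * ((r:ℝ) + 1) ^ 14 * (q0 ^ (1 - ε ^ 2) * q0 ^ (5 * η) * q0 ^ (5 * κ)) := by ring
    _ = C * 139968 * ((r:ℝ) + 1) ^ 14 * q0 ^ (1 - ε ^ 2 + 5 * η + 5 * κ) := by
        rw [← Real.rpow_add hqp, ← Real.rpow_add hqp]

end Pool.Agent.L0h54.HV
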