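import Pool.Agent.L0h54.HV.Fin2
import Pool.Agent.L0h54.GC.Main

set_option autoImplicit false

/-! The exceptional primes for all scales. -/

namespace Pool.Agent.L0h54.HV

open Finset Filter
open scoped Classical Topology
open Pool.Agent.H306R2.RZ (js LSB)
open Pool.Agent.L0h54.GC (asym)
open Pool.Agent.H423R2.RZL.HBLSn (HBLS)

theorem all_scales (hB : BON) (hK : KER) (ε κ : ℝ) (hε0 : 0 < ε) (hε1 : ε ≤ 1) (hκ : κ = ε ^ 2 / 20) :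
    ∃ c : ℝ, 0 < c ∧ ∃ Q0 : ℕ, ∀ Q : ℕ, Q0 ≤ Q → ∀ f : ℕ → ℝ, (∀ n, |f n| ≤ 1) →
      ∃ E : Finset ℕ, (E.card : ℝ) ≤ (Q:ℝ) ^ (1 - c) ∧
        ∀ l : ℕ, l.Prime → l ≤ Q → l ∉ E → ∀ r q : ℕ, (Q:ℝ) ^ ε ≤ (2:ℝ) ^ r → 1 ≤ q → q ≤ 2 ^ r →
          (2:ℝ) ^ (ε * ((r:ℝ) - 1)) ≤ q → ((2:ℝ) ^ r) ^ 4 ≤ 16 * (q * (Q:ℝ) ^ (1 - ε)) →
            l ≠ 2 ∧ 2 ^ r < l ∧ l ∉ BadQ r (jr κ r) Q q f (Tr κ r) := by
  have he2 : 0 < ε ^ 2 := by positivity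
  have he21 : ε ^ 2 ≤ 1 := by nlinarith
  have hκ0 : 0 < κ := by rw [hκ]; positivity
  have hκ1 : κ ≤ 1 := by rw [hκ]; linarith
  obtain ⟨C, hC, hls⟩ := HBLS κ hκ0
  obtain ⟨c', hc'⟩ : ∃ c' : ℝ, c' = ε ^ 2 / 200 := ⟨_, rfl⟩
  have hc'0 : 0 < c' := by rw [hc']; positivity
  obtain ⟨c, hc⟩ : ∃ c : ℝ, c = ε ^ 2 / 4 := ⟨_, rfl⟩
  have hc0 : 0 < c := by rw [hc]; positivity
  have hev := (((tendsto_rpow_atTop hε0).comp
      (tendsto_natCast_atTop_atTop (R := ℝ))).eventually_ge_atTop 16).and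
    ((asym 1 c' hc'0).and ((asym (C * 139968) c' hc'0).and
    ((((tendsto_rpow_atTop hc'0).comp
      (tendsto_natCast_atTop_atTop (R := ℝ))).eventually_ge_atTop 2).and (eventually_ge_atTop 4))))
  obtain ⟨Q0, hQ0⟩ := eventually_atTop.mp hev
  refine ⟨c, hc0, Q0, ?_⟩
  intro Q hQ f hf
  obtain ⟨v1, v2, v3, v5, hQ4⟩ := hQ0 Q hQ
  simp only [Function.comp] at v1 v5
  obtain ⟨q0, hq0⟩ : ∃ q0 : ℝ, q0 = (Q:ℝ) := ⟨_, rfl⟩
  have hq1 : 1 ≤ q0 := by rw [hq0]; exact_mod_cast (by omega : 1 ≤ Q)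
  have hqp : 0 < q0 := by linarith
  obtain ⟨ll, hll⟩ : ∃ ll : ℝ, ll = ((Nat.log 2 Q : ℕ) : ℝ) + 1 := ⟨_, rfl⟩
  rw [← hll, ← hq0] at v2 v3
  rw [← hq0] at v1 v5
  have hll1 : 1 ≤ ll := by
    rw [hll]; have : (0:ℝ) ≤ ((Nat.log 2 Q : ℕ) : ℝ) := Nat.cast_nonneg _; linarith
  have hqm : ∀ a b : ℝ, a ≤ b → q0 ^ a ≤ q0 ^ b := fun a b h =>
    Real.rpow_le_rpow_of_exponent_le hq1 h
  obtain ⟨RS, hRS⟩ : ∃ RS : Finset ℕ, RS = (Icc 1 (Nat.log 2 Q)).filter (fun r => q0 ^ ε ≤ (2:ℝ) ^ r) := ⟨_, rfl⟩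
  refine ⟨Icc 1 (Nat.sqrt Q) ∪ RS.biUnion (fun r => Er ε κ Q r f), ?_, ?_⟩
  · -- the size
    have h1 : ∀ r ∈ RS, ((Er ε κ Q r f).card : ℝ) ≤ C * 139968 * ll ^ 14 * q0 ^ (1 - ε ^ 2 / 2) := by
      intro r hr
      rw [hRS, mem_filter, mem_Icc] at hr
      obtain ⟨⟨hr1, hr2⟩, hr3⟩ := hr
      have h2 : (2:ℝ) ^ r ≤ q0 := by
        have : 2 ^ r ≤ Q := Nat.pow_le_of_le_log (by omega) hr2
        rw [hq0]; exact_mod_cast this
      have h3 := scale_card hB hK ε κ κ C hC hls hε0 hε1 hκ0 hκ1 hκ0 r Q f hf hr1 (by omega)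
        (by rw [← hq0]; exact hr3) (by rw [← hq0]; exact h2)
      rw [← hq0] at h3
      have h4 : (r:ℝ) + 1 ≤ ll := by
        rw [hll]
        have : (r:ℝ) ≤ ((Nat.log 2 Q : ℕ) : ℝ) := by exact_mod_cast hr2
        linarith
      have e : 1 - ε ^ 2 + 5 * κ + 5 * κ = 1 - ε ^ 2 / 2 := by rw [hκ]; ring
      rw [e] at h3
      refine h3.trans ?_
      gcongr
    have h2 : ((RS.biUnion (fun r => Er ε κ Q r f)).card : ℝ) ≤
        ll * (C * 139968 * ll ^ 14 * q0 ^ (1 - ε ^ 2 / 2)) := by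
      have h3 : ((RS.biUnion (fun r => Er ε κ Q r f)).card : ℝ) ≤ ∑ r ∈ RS, ((Er ε κ Q r f).card : ℝ) := by
        exact_mod_cast card_biUnion_le
      refine h3.trans ((sum_le_sum h1).trans ?_)
      rw [sum_const, nsmul_eq_mul]
      apply mul_le_mul_of_nonneg_right _ (by positivity)
      have h4 : RS.card ≤ Nat.log 2 Q := by
        rw [hRS]
        refine (card_filter_le _ _).trans ?_
        rw [Nat.card_Icc]; omega
      have h5 : (RS.card : ℝ) ≤ ((Nat.log 2 Q : ℕ) : ℝ) := by exact_mod_cast h4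
      rw [hll]; linarith
    have h3 : ((Icc 1 (Nat.sqrt Q) : Finset ℕ).card : ℝ) ≤ q0 ^ ((1:ℝ) / 2) := by
      rw [Nat.card_Icc, Nat.add_sub_cancel, ← Real.sqrt_eq_rpow]
      apply Real.le_sqrt_of_sq_le
      rw [hq0]
      exact_mod_cast Nat.sqrt_le' Q
    have h4 : ((Icc 1 (Nat.sqrt Q) ∪ RS.biUnion (fun r => Er ε κ Q r f) : Finset ℕ).card : ℝ) ≤
        ((Icc 1 (Nat.sqrt Q) : Finset ℕ).card : ℝ) + ((RS.biUnion (fun r => Er ε κ Q r f)).card : ℝ) := by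
      exact_mod_cast card_union_le _ _
    have m1 : ll ≤ q0 ^ c' := by rw [one_mul] at v2; exact v2
    have k4 : ll * (C * 139968 * ll ^ 14 * q0 ^ (1 - ε ^ 2 / 2)) ≤ q0 ^ (1 - c) / 2 := by
      have m4 : ll ^ 14 ≤ q0 ^ (14 * c') := by
        calc ll ^ 14 ≤ (q0 ^ c') ^ 14 := pow_le_pow_left₀ (by linarith) m1 14
          _ = q0 ^ (14 * c') := by
              rw [← Real.rpow_natCast, ← Real.rpow_mul hqp.le]; congr 1; push_cast; ring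
      have m5 : q0 ^ c' * q0 ^ (14 * c') * q0 ^ (1 - ε ^ 2 / 2) * q0 ^ c' ≤ q0 ^ (1 - c) := by
        rw [← Real.rpow_add hqp, ← Real.rpow_add hqp, ← Real.rpow_add hqp]
        apply hqm
        rw [hc, hc']
        linarith
      have m6 : 0 < q0 ^ (1 - ε ^ 2 / 2) := by positivity
      have m7 : 0 < q0 ^ c' := by positivity
      have m8 : ll * (C * 139968 * ll ^ 14 * q0 ^ (1 - ε ^ 2 / 2)) ≤
          q0 ^ c' * q0 ^ (14 * c') * q0 ^ (1 - ε ^ 2 / 2) := by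
        calc ll * (C * 139968 * ll ^ 14 * q0 ^ (1 - ε ^ 2 / 2)) =
              (C * 139968 * ll) * ll ^ 14 * q0 ^ (1 - ε ^ 2 / 2) := by ring
          _ ≤ _ := by gcongr
      have m9 : (q0 ^ c' * q0 ^ (14 * c') * q0 ^ (1 - ε ^ 2 / 2)) * 2 ≤
          q0 ^ c' * q0 ^ (14 * c') * q0 ^ (1 - ε ^ 2 / 2) * q0 ^ c' :=
        mul_le_mul_of_nonneg_left v5 (by positivity)
      linarith
    have k5 : q0 ^ ((1:ℝ) / 2) ≤ q0 ^ (1 - c) / 2 := by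
      have m1 : q0 ^ ((1:ℝ) / 2) * q0 ^ c' ≤ q0 ^ (1 - c) := by
        rw [← Real.rpow_add hqp]
        apply hqm
        rw [hc, hc']
        linarith
      have m2 : q0 ^ ((1:ℝ) / 2) * 2 ≤ q0 ^ ((1:ℝ) / 2) * q0 ^ c' :=
        mul_le_mul_of_nonneg_left v5 (by positivity)
      linarith
    rw [← hq0]
    linarith
  · intro l hl hlQ hlE r q h1 h2 h3 h4 h5
    rw [mem_union, mem_Icc, mem_biUnion] at hlE
    push Not at hlE
    obtain ⟨hlE1, hlE2⟩ := hlE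
    rw [← hq0] at h1 h5
    have hl1 : Nat.sqrt Q < l := hlE1 hl.one_lt.le
    have h6 : (2:ℝ) ^ r ≤ Nat.sqrt Q := by
      have g1 : (q:ℝ) ≤ (2:ℝ) ^ r := by exact_mod_cast h3
      have g2 : q0 ^ (1 - ε) ≤ q0 := by
        calc q0 ^ (1 - ε) ≤ q0 ^ (1:ℝ) := hqm _ _ (by linarith)
          _ = q0 := Real.rpow_one q0
      obtain ⟨R, hR⟩ : ∃ R : ℝ, R = (2:ℝ) ^ r := ⟨_, rfl⟩
      rw [← hR] at h1 h5 g1
      have hR0 : 0 < R := by rw [hR]; positivity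
      have hR16 : 16 ≤ R := v1.trans h1
      have g3 : R ^ 4 ≤ 16 * (R * q0) := by
        refine h5.trans ?_
        gcongr
      have g4 : R ^ 3 ≤ 16 * q0 := by
        have : R * R ^ 3 ≤ R * (16 * q0) := by nlinarith
        exact le_of_mul_le_mul_left this hR0
      have g5 : R ^ 2 ≤ q0 := by
        have : 16 * R ^ 2 ≤ R * R ^ 2 := by nlinarith [sq_nonneg R]
        nlinarith
      have g6 : (2 ^ r) ^ 2 ≤ Q := by
        have : ((2:ℝ) ^ r) ^ 2 ≤ (Q:ℝ) := by rw [← hR, ← hq0]; exact g5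
        exact_mod_cast this
      have g7 : 2 ^ r ≤ Nat.sqrt Q := Nat.le_sqrt'.mpr g6
      exact_mod_cast g7
    have h7 : 2 ^ r ≤ Nat.sqrt Q := by exact_mod_cast h6
    have h8 : Nat.sqrt Q ≤ Q := Nat.sqrt_le_self Q
    have h9 : 2 ≤ Nat.sqrt Q := Nat.le_sqrt'.mpr (by omega)
    refine ⟨by omega, by omega, ?_⟩
    intro hcon
    have hr1 : 1 ≤ r := by
      by_contra hr
      have : r = 0 := by omega
      rw [this, pow_zero] at h1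
      linarith
    have hrS : r ∈ RS := by
      rw [hRS, mem_filter, mem_Icc]
      exact ⟨⟨hr1, Nat.le_log_of_pow_le (by norm_num) (h7.trans h8)⟩, h1⟩
    apply hlE2 r hrS
    unfold Er
    rw [mem_biUnion]
    refine ⟨q, ?_, hcon⟩
    unfold Qs
    rw [mem_filter, mem_Icc]
    exact ⟨⟨h2, h3⟩, h4, by rw [← hq0]; exact h5⟩

end Pool.Agent.L0h54.HV
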