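import Pool.Agent.L0h41.MQ.D
import Pool.Agent.L0h54.GC.LS

set_option autoImplicit false

/-!
# The variance over residue classes of the von Mangoldt function twisted by Legendre symbols: statements

Existing files: `L0h41/MQ/{A,B,C,D}.lean` (signs `sg`, `sg_add`, `sg_pair`; `AP`, `AP_card`, `cf`, `decomp`, `cf_sq`, `odd`,
`ww`, `even_part`), `L0h54/GC/LS.lean` (`ls_fam`), `H637R3/UC/Bonami.lean` (`bonami`), `H636R2/MT/T_BON.lean` (`bon_main`).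
`AP y z q a` = the `n` with `y < n ≤ z`, `n ≡ a [MOD q]`; `cf y z q a f p` = sum of `Λ(n) f(n)` over the odd powers `n` of
`p` in `AP y z q a` (prime powers which are not squares, with `minFac = p`);
`odd N y z q a f l = ∑ p ∈ (Icc 1 N).filter Nat.Prime, cf y z q a f p * js p l`.
-/

namespace Pool.Agent.L0h54.HV

open Finset
open scoped Classical
open Pool.Agent.H306R2.RZ (js LSB)
open Pool.Agent.L0h41.MQ (AP cf odd)
open ArithmeticFunction (vonMangoldt)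

/-- the pairs `p < p'` of primes up to `N` -/
noncomputable def Pr (N : ℕ) : Finset (ℕ × ℕ) :=
  (((Icc 1 N).filter Nat.Prime) ×ˢ ((Icc 1 N).filter Nat.Prime)).filter (fun w => w.1 < w.2)

/-- Module BON (about 200 lines): fourth moment of a quadratic form in the symbols.
Proof: `(∑ w, K w js js) ^ 2 = ∑ (w₁, w₂) ...` is a sum over a family of integers `w₁.1 w₁.2 w₂.1 w₂.2 ≤ N ^ 4 ≤ M`, so
`GC.ls_fam` bounds the left side by `B` times the sum of `|K K K K|` over the quadruples of pairs for which the product of the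
eight primes is a square. With random signs `sg T p` (as in `sg_pair`, `sq_count` of `L0h41/MQ/A.lean`) this sum is at most
the mean over `T ⊆ primes` of `(∑ w, |K w| sg T w.1 sg T w.2) ^ 4`, and Bonami's inequality for polynomials of degree 2
gives `81 (∑ K ^ 2) ^ 2` (`H637R3.UC.bonami` or `bon_main`, applied to the coefficients times `3`, respectively). -/
def BON : Prop := ∀ (N M Q : ℕ) (B : ℝ), 0 ≤ B → LSB M Q B → N ^ 4 ≤ M → ∀ (K : ℕ × ℕ → ℝ) (P : Finset ℕ),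
  (∀ l ∈ P, l.Prime ∧ l ≠ 2 ∧ N < l ∧ l ≤ Q) →
  ∑ l ∈ P, (∑ w ∈ Pr N, K w * (js (w.1 : ℤ) l * js (w.2 : ℤ) l)) ^ 4 ≤ B * (81 * (∑ w ∈ Pr N, K w ^ 2) ^ 2)

/-- the coefficients of the off-diagonal terms -/
noncomputable def Ke (q y z : ℕ) (f : ℕ → ℝ) (w : ℕ × ℕ) : ℝ :=
  2 * ∑ a ∈ range q, cf y z q a f w.1 * cf y z q a f w.2

/-- the variance of the odd part -/
noncomputable def Vo (N q y z : ℕ) (f : ℕ → ℝ) (l : ℕ) : ℝ := ∑ a ∈ range q, odd N y z q a f l ^ 2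

/-- the diagonal terms -/
noncomputable def Dg (N q y z : ℕ) (f : ℕ → ℝ) : ℝ :=
  ∑ a ∈ range q, ∑ p ∈ (Icc 1 N).filter Nat.Prime, cf y z q a f p ^ 2

/-- Module KER (about 200 lines). First part: expand the square, `js p l ^ 2 = 1` (`GC.js_sq_one`), symmetry. Second part:
`|∑ a, cf_a(p) cf_a(p')| ≤ (log N) ^ 2 m(p, p')` with `m(p, p')` the number of pairs `(n, n')`, `n` a power of `p`, `n'` of
`p'`, both in `(y, z]`, `n ≡ n'` modulo `q`; `m ≤ (Nat.log 2 N + 1) ^ 2`, and the sum of the `m(p, p')`, `p < p'`, is at most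
the number of pairs `n ≠ n'` in `(y, z]`, `n ≡ n'`, which is at most `(z - y) (z - y) / q` (`AP_card`). Third part as in
`cf_sq` (`L0h41/MQ/B.lean`). -/
def KER : Prop := ∀ (N q y z : ℕ) (f : ℕ → ℝ), (∀ n, |f n| ≤ 1) → 2 ≤ N → 1 ≤ q → y ≤ z → z ≤ N →
  (∀ l : ℕ, l.Prime → N < l → Vo N q y z f l = Dg N q y z f +
    ∑ w ∈ Pr N, Ke q y z f w * (js (w.1 : ℤ) l * js (w.2 : ℤ) l)) ∧
  ∑ w ∈ Pr N, Ke q y z f w ^ 2 ≤
    4 * (Real.log N ^ 2 * (Nat.log 2 N + 1)) ^ 2 * (((z:ℝ) - y) ^ 2 / q) ∧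
  Dg N q y z f ≤ Real.log N ^ 2 * (Nat.log 2 N + 1) * ((z:ℝ) - y)

/-- Module EVN (about 80 lines): the squares. Proof: `MQ.even_part` (with the divisor bound
`Pool.Agent.Helper112.divisor_bound`) for one `a`, and the sum over `a` of the absolute values is at most
`√N log N`. -/
def EVN : Prop := ∀ η : ℝ, 0 < η → ∃ C : ℝ, 0 < C ∧ ∀ (N q z : ℕ) (f : ℕ → ℝ), (∀ n, |f n| ≤ 1) → 2 ≤ N → 1 ≤ q →
  z ≤ N → ∀ l : ℕ,
  ∑ a ∈ range q, (∑ n ∈ (AP 0 z q a).filter (fun n => IsSquare n), vonMangoldt n * f n * js (n : ℤ) l) ^ 2 ≤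
    C * (N:ℝ) ^ η * ((N:ℝ) / √q + √N)

/-- Module DIA (about 150 lines): the diagonal terms. Proof: expand the square of `cf`; the terms `n = n'` give the sum over
the prime powers which are not squares; in the terms `n ≠ n'` one of `n`, `n'` is not a prime; the number of the
prime powers up to `z` which are not primes is at most `√z (Nat.log 2 z + 1)`. -/
def DIA : Prop := ∃ C : ℝ, 0 < C ∧ ∀ (N q z : ℕ) (f : ℕ → ℝ), (∀ n, |f n| ≤ 1) → 2 ≤ N → 1 ≤ q → z ≤ N →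
  |Dg N q 0 z f - ∑ n ∈ Icc 1 z, (vonMangoldt n * f n) ^ 2| ≤ C * √N * Real.log N ^ 5

/-- Module NCP (about 80 lines): the classes `a` not coprime to `q`. Proof: the sum is at most the square of the sum of
`Λ(n)` over the `n ≤ z` which are not coprime to `q`: powers of primes dividing `q`, of which there are at most
`(Nat.log 2 q + 1) (Nat.log 2 N + 1)`. -/
def NCP : Prop := ∃ C : ℝ, 0 < C ∧ ∀ (N q z : ℕ) (f : ℕ → ℝ), (∀ n, |f n| ≤ 1) → 2 ≤ N → 1 ≤ q → q ≤ N → z ≤ N →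
  ∀ l : ℕ, ∑ a ∈ (range q).filter (fun a => ¬ Nat.Coprime a q),
    (∑ n ∈ AP 0 z q a, vonMangoldt n * f n * js (n : ℤ) l) ^ 2 ≤ C * Real.log N ^ 6

/-- Module LOW (about 100 lines), from the prime number theorem (in the repository) or any form of it: see for instance
`Pool/Agent/Cov/PNT.lean`; `∑ Λ(n) ^ 2 ≥ ∑_{y < p ≤ x} (log p) ^ 2 ≥ log y (θ(x) - θ(y))` with `y = x ^ (1 - δ)`. -/
def LOW : Prop := ∀ δ : ℝ, 0 < δ → ∃ x0 : ℕ, ∀ x : ℕ, x0 ≤ x →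
  (1 - δ) * (x * Real.log x) ≤ ∑ n ∈ Icc 1 x, vonMangoldt n ^ 2

/-- Module MAX (about 250 lines): chaining (deterministic), from KER and DIA. `R = 2 ^ r`.
Proof: `odd` is additive in the interval: `odd y w = odd y z + odd z w` (as `cf` is). For `z ≤ R` let
`z0 = z / 2 ^ j0 * 2 ^ j0`. Then `(z0, z]` is the disjoint union of at most one dyadic block of each length `2 ^ j`, `j < j0`
(and none of length `2 ^ j0`), so `∑_a odd(z0, z)² ≤ j0 ∑_j Vo(block) ≤ j0² (T + log² R (r + 1) 2 ^ j0)`; and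
`|∑ (A + B)² - ∑ A²| ≤ 2 sqrt (∑ A² ∑ B²) + ∑ B²` with `A = odd(0, z0)`, `∑ A² ≤ Dg + T`. Finally DIA for `z` and `z0`. -/
def MAX : Prop := ∃ C : ℝ, 0 < C ∧ ∀ (r j0 q : ℕ) (f : ℕ → ℝ) (l : ℕ) (T : ℝ), (∀ n, |f n| ≤ 1) → 1 ≤ r → j0 ≤ r →
  1 ≤ q → l.Prime → 2 ^ r < l → 0 ≤ T →
  (∀ j ≤ j0, ∀ u : ℕ, (u + 1) * 2 ^ j ≤ 2 ^ r →
    |Vo (2 ^ r) q (u * 2 ^ j) ((u + 1) * 2 ^ j) f l - Dg (2 ^ r) q (u * 2 ^ j) ((u + 1) * 2 ^ j) f| ≤ T) →
  (∀ u : ℕ, u * 2 ^ j0 ≤ 2 ^ r → |Vo (2 ^ r) q 0 (u * 2 ^ j0) f l - Dg (2 ^ r) q 0 (u * 2 ^ j0) f| ≤ T) →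
  ∀ z ≤ 2 ^ r, |Vo (2 ^ r) q 0 z f l - ∑ n ∈ Icc 1 z, (vonMangoldt n * f n) ^ 2| ≤
    C * (r:ℝ) ^ 6 * (√((2:ℝ) ^ r * ((2:ℝ) ^ j0 + T)) + (2:ℝ) ^ j0 + T + √((2:ℝ) ^ r))

end Pool.Agent.L0h54.HV
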